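import Mathlib

/-!
# Families of finitely supported functions on sequences

`v : (ℕ → X) → ((ℕ → X) →₀ N)` is compatible with four substitutions and respects a family of
relations that makes `X` rigid. Then `v s = single s c` for one constant `c`.
-/

namespace Q43.RE

universe u

/-- doubling -/
def sE (n : ℕ) : ℕ := 2 * n

/-- doubling plus one -/
def sO (n : ℕ) : ℕ := 2 * n + 1

/-- fixes even numbers, moves odd ones up -/
def sS (n : ℕ) : ℕ := if n % 2 = 0 then n else n + 2

/-- fixes even numbers, sends odd ones to `1` -/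
def sZ (n : ℕ) : ℕ := if n % 2 = 0 then n else 1

theorem sS_sE (n : ℕ) : sS (sE n) = sE n := by
  unfold sS sE
  rw [if_pos (by omega)]

theorem sS_sO (n : ℕ) : sS (sO n) = sO (n + 1) := by
  unfold sS sO
  rw [if_neg (by omega)]
  ring

theorem sZ_sE (n : ℕ) : sZ (sE n) = sE n := by
  unfold sZ sE
  rw [if_pos (by omega)]

theorem sZ_sO (n : ℕ) : sZ (sO n) = 1 := by
  unfold sZ sO
  rw [if_neg (by omega)]

/-- interleaving of two sequences -/
def jn {X : Type u} (a b : ℕ → X) (n : ℕ) : X := if n % 2 = 0 then a (n / 2) else b (n / 2)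

theorem jn_sE {X : Type u} (a b : ℕ → X) : (fun n => jn a b (sE n)) = a := by
  funext n
  unfold jn sE
  rw [if_pos (by omega)]
  congr 1
  omega

theorem jn_sO {X : Type u} (a b : ℕ → X) : (fun n => jn a b (sO n)) = b := by
  funext n
  unfold jn sO
  rw [if_neg (by omega)]
  congr 1
  omega

theorem jn_sS {X : Type u} (a b : ℕ → X) :
    (fun n => jn a b (sS n)) = jn a (fun n => b (n + 1)) := by
  funext n
  unfold jn sS
  by_cases h : n % 2 = 0
  · rw [if_pos h, if_pos h, if_pos h]
  · rw [if_neg h, if_neg h, if_neg (by omega)]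
    congr 1
    omega

theorem jn_sZ {X : Type u} (a b : ℕ → X) :
    (fun n => jn a b (sZ n)) = jn a (fun _ => b 0) := by
  funext n
  unfold jn sZ
  by_cases h : n % 2 = 0
  · rw [if_pos h, if_pos h, if_pos h]
  · rw [if_neg h, if_neg h, if_neg (by omega)]

theorem pow_mul_odd_injective :
    Function.Injective (fun q : ℕ × ℕ => 2 ^ q.1 * (2 * q.2 + 1)) := by
  have key : ∀ (k l n m : ℕ), 2 ^ k * (2 * n + 1) = 2 ^ l * (2 * m + 1) → k = l ∧ n = m := by
    intro k
    induction k with
    | zero =>
      intro l n m h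
      cases l with
      | zero => simp at h; omega
      | succ l =>
        exfalso
        rw [pow_succ, pow_zero] at h
        have : 2 ^ l * 2 * (2 * m + 1) = 2 * (2 ^ l * (2 * m + 1)) := by ring
        rw [this] at h
        omega
    | succ k ih =>
      intro l n m h
      cases l with
      | zero =>
        exfalso
        rw [pow_succ, pow_zero] at h
        have : 2 ^ k * 2 * (2 * n + 1) = 2 * (2 ^ k * (2 * n + 1)) := by ring
        rw [this] at h
        omega
      | succ l =>
        have h' : 2 ^ k * (2 * n + 1) = 2 ^ l * (2 * m + 1) := by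
          rw [pow_succ, pow_succ] at h
          have h1 : 2 ^ k * 2 * (2 * n + 1) = 2 * (2 ^ k * (2 * n + 1)) := by ring
          have h2 : 2 ^ l * 2 * (2 * m + 1) = 2 * (2 ^ l * (2 * m + 1)) := by ring
          rw [h1, h2] at h
          omega
        obtain ⟨h1, h2⟩ := ih l n m h'
        exact ⟨by omega, h2⟩
  rintro ⟨k, n⟩ ⟨l, m⟩ h
  obtain ⟨h1, h2⟩ := key k l n m h
  rw [h1, h2]

/-- Countably many sequences are coded in one. -/
theorem exists_code {X : Type u} (s : ℕ → ℕ → X) :
    ∃ t : ℕ → X, ∀ k n, t (2 ^ k * (2 * n + 1)) = s k n := by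
  refine ⟨fun j => s (Function.invFun (fun q : ℕ × ℕ => 2 ^ q.1 * (2 * q.2 + 1)) j).1
    (Function.invFun (fun q : ℕ × ℕ => 2 ^ q.1 * (2 * q.2 + 1)) j).2, ?_⟩
  intro k n
  have h := Function.leftInverse_invFun pow_mul_odd_injective (k, n)
  have h' : Function.invFun (fun q : ℕ × ℕ => 2 ^ q.1 * (2 * q.2 + 1)) (2 ^ k * (2 * n + 1))
      = (k, n) := h
  simp only [h']

variable {X : Type u} {N : Type u} [AddCommMonoid N]

/-- substitution in sequences, on finitely supported functions -/
noncomputable def sub (σ : ℕ → ℕ) (x : (ℕ → X) →₀ N) : (ℕ → X) →₀ N :=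
  Finsupp.mapDomain (fun s n => s (σ n)) x

theorem card_sub_le (σ : ℕ → ℕ) (x : (ℕ → X) →₀ N) :
    (sub σ x).support.card ≤ x.support.card := by
  classical
  exact (Finset.card_le_card Finsupp.mapDomain_support).trans Finset.card_image_le

/-- The core statement. -/
theorem core (rel : ℕ → (ℕ → X) → Prop)
    (hrig : ∀ f : X → X, (∀ j r, rel j r → rel j (fun n => f (r n))) → ∀ x, f x = x)
    (v : (ℕ → X) → ((ℕ → X) →₀ N))
    (hE : ∀ s, v (fun n => s (sE n)) = sub sE (v s))
    (hO : ∀ s, v (fun n => s (sO n)) = sub sO (v s))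
    (hS : ∀ s, v (fun n => s (sS n)) = sub sS (v s))
    (hZ : ∀ s, v (fun n => s (sZ n)) = sub sZ (v s))
    (hR : ∀ j s, rel j (fun n => s (sO n)) → ∀ u ∈ (v s).support, rel j (fun n => u (sO n)))
    [Nonempty X] :
    ∃ c : N, ∀ s, v s = Finsupp.single s c := by
  classical
  -- boundedness of the supports
  have hpow : ∀ k s, (v (fun n => s (2 ^ k * n))).support.card ≤ (v s).support.card := by
    intro k
    induction k with
    | zero => intro s; simp
    | succ k ih =>
      intro s
      have h1 : (fun n => s (2 ^ (k + 1) * n)) = (fun n => (fun m => s (2 ^ k * m)) (sE n)) := by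
        funext n
        simp only [sE]
        congr 1
        ring
      rw [h1, hE (fun m => s (2 ^ k * m))]
      exact (card_sub_le _ _).trans (ih s)
  obtain ⟨B, hB⟩ : ∃ B, ∀ s, (v s).support.card ≤ B := by
    by_contra hcon
    push Not at hcon
    choose s hs using hcon
    obtain ⟨t, ht⟩ := exists_code s
    have h1 : ∀ k, k < (v t).support.card := by
      intro k
      have h2 : s k = (fun n => (fun m => t (2 ^ k * m)) (sO n)) := by
        funext n
        exact (ht k n).symm
      have h3 := hs k
      rw [h2, hO (fun m => t (2 ^ k * m))] at h3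
      exact lt_of_lt_of_le h3 ((card_sub_le _ _).trans (hpow k t))
    exact absurd (h1 (v t).support.card) (lt_irrefl _)
  obtain ⟨s₀, hmax⟩ : ∃ s₀, ∀ s, (v s).support.card ≤ (v s₀).support.card := by
    have hbdd : BddAbove (Set.range fun s => (v s).support.card) :=
      ⟨B, by rintro _ ⟨s, rfl⟩; exact hB s⟩
    have hne : (Set.range fun s => (v s).support.card).Nonempty := Set.range_nonempty _
    obtain ⟨s₀, hs₀⟩ := Nat.sSup_mem hne hbdd
    refine ⟨s₀, fun s => ?_⟩
    have := le_csSup hbdd (Set.mem_range_self s)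
    rw [← hs₀] at this
    exact this
  -- the joins
  have hjE : ∀ s, sub sE (v (jn s₀ s)) = v s₀ := by
    intro s
    rw [← hE, jn_sE]
  have hjO : ∀ s, sub sO (v (jn s₀ s)) = v s := by
    intro s
    rw [← hO, jn_sO]
  have hsupp : ∀ s, (v s₀).support ⊆ (v (jn s₀ s)).support.image (fun u n => u (sE n)) := by
    intro s
    have h := hjE s
    rw [← h]
    exact Finsupp.mapDomain_support
  have hcard : ∀ s, ((v (jn s₀ s)).support.image (fun u n => u (sE n))).card =
      (v (jn s₀ s)).support.card := by
    intro s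
    apply le_antisymm Finset.card_image_le
    exact (hmax _).trans (Finset.card_le_card (hsupp s))
  have hinj : ∀ s, Set.InjOn (fun (u : ℕ → X) n => u (sE n)) (v (jn s₀ s)).support := by
    intro s
    exact Finset.card_image_iff.1 (hcard s)
  have heq : ∀ s, (v (jn s₀ s)).support.image (fun u n => u (sE n)) = (v s₀).support := by
    intro s
    symm
    apply Finset.eq_of_subset_of_card_le (hsupp s)
    exact Finset.card_image_le.trans (hmax _)
  have hex : ∀ s, ∀ t ∈ (v s₀).support, ∃ u ∈ (v (jn s₀ s)).support, (fun n => u (sE n)) = t := by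
    intro s t ht
    rw [← heq s] at ht
    exact Finset.mem_image.1 ht
  -- stability of supports under substitutions which fix the even places
  have hstab : ∀ (σ : ℕ → ℕ), (∀ n, σ (sE n) = sE n) → ∀ s s',
      v (jn s₀ s') = sub σ (v (jn s₀ s)) → ∀ u ∈ (v (jn s₀ s)).support,
      (fun n => u (σ n)) ∈ (v (jn s₀ s')).support := by
    intro σ hσ s s' h u hu
    have hi : Set.InjOn (fun (u : ℕ → X) n => u (σ n)) (v (jn s₀ s)).support := by
      intro a ha b hb hab
      apply hinj s ha hb
      funext n
      have := congrFun hab (sE n)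
      simpa [hσ] using this
    rw [h, Finsupp.mem_support_iff]
    have h2 := Finsupp.mapDomain_apply' (S := ((v (jn s₀ s)).support : Set (ℕ → X)))
      (v (jn s₀ s)) (subset_refl _) hi (a := u) hu
    rw [sub, h2]
    exact Finsupp.mem_support_iff.1 hu
  -- chosen lifts
  choose! G hG1 hG2 using hex
  have huniq : ∀ s t, t ∈ (v s₀).support → ∀ u ∈ (v (jn s₀ s)).support,
      (fun n => u (sE n)) = t → u = G s t := by
    intro s t ht u hu hut
    exact hinj s hu (hG1 s t ht) (hut.trans (hG2 s t ht).symm)
  have hGS : ∀ s t, t ∈ (v s₀).support → G (fun n => s (n + 1)) t = fun n => G s t (sS n) := by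
    intro s t ht
    symm
    apply huniq _ t ht
    · apply hstab sS sS_sE s (fun n => s (n + 1)) _ _ (hG1 s t ht)
      rw [← jn_sS, hS]
    · funext n
      have := congrFun (hG2 s t ht) n
      simpa [sS_sE] using this
  have hGZ : ∀ s t, t ∈ (v s₀).support → G (fun _ => s 0) t = fun n => G s t (sZ n) := by
    intro s t ht
    symm
    apply huniq _ t ht
    · apply hstab sZ sZ_sE s (fun _ => s 0) _ _ (hG1 s t ht)
      rw [← jn_sZ, hZ]
    · funext n
      have := congrFun (hG2 s t ht) n
      simpa [sZ_sE] using this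
  have hf0 : ∀ t, t ∈ (v s₀).support → ∀ s, G s t (sO 0) = G (fun _ => s 0) t (sO 0) := by
    intro t ht s
    rw [hGZ s t ht]
    simp only [sZ_sO]
    rfl
  have hf : ∀ t, t ∈ (v s₀).support → ∀ n s, G s t (sO n) = G (fun _ => s n) t (sO 0) := by
    intro t ht n
    induction n with
    | zero => exact hf0 t ht
    | succ n ih =>
      intro s
      have h1 := ih (fun n => s (n + 1))
      rw [hGS s t ht] at h1
      simpa only [sS_sO] using h1
  have hid : ∀ t, t ∈ (v s₀).support → ∀ s, (fun n => G s t (sO n)) = s := by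
    intro t ht s
    have h1 : ∀ x, G (fun _ => x) t (sO 0) = x := by
      apply hrig (fun x => G (fun _ => x) t (sO 0))
      intro j r hr
      have h2 := hR j (jn s₀ r) (by rw [jn_sO]; exact hr) (G r t) (hG1 r t ht)
      have h3 : (fun n => G r t (sO n)) = fun n => G (fun _ => r n) t (sO 0) := by
        funext n
        exact hf t ht n r
      rw [h3] at h2
      exact h2
    funext n
    rw [hf t ht n s, h1]
  -- the end
  have hall : ∀ s, ∀ u ∈ (v (jn s₀ s)).support, (fun n => u (sO n)) = s := by
    intro s u hu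
    have ht : (fun n => u (sE n)) ∈ (v s₀).support := by
      rw [← heq s]
      exact Finset.mem_image_of_mem _ hu
    rw [huniq s _ ht u hu rfl]
    exact hid _ ht s
  refine ⟨(v s₀).sum (fun _ x => x), fun s => ?_⟩
  have h1 : (v s₀).sum (fun _ x => x) = (v (jn s₀ s)).sum (fun _ x => x) := by
    rw [← hjE s, sub, Finsupp.sum_mapDomain_index (fun _ => rfl) (fun _ _ _ => rfl)]
  rw [h1, ← hjO s, sub, Finsupp.mapDomain, Finsupp.sum, Finsupp.sum]
  have h2 : ∀ u ∈ (v (jn s₀ s)).support, Finsupp.single (fun n => u (sO n)) (v (jn s₀ s) u) =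
      Finsupp.single s (v (jn s₀ s) u) := by
    intro u hu
    rw [hall s u hu]
  rw [Finset.sum_congr rfl h2, Finsupp.single_finset_sum]

end Q43.RE
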