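import Mathlib

/-!
# Comodules, right modules, fully wild algebras and representation embeddings
-/

open CategoryTheory TensorProduct

namespace Q43.RE

universe u

section Tensor

variable (K : Type u) [CommRing K] (C : Type u) [AddCommGroup C] [Module K C]

/-- The tensor product `C ⊗ M`. -/
def Ten (M : Type u) [AddCommGroup M] [Module K M] : Type u := C ⊗[K] M

instance Ten.acg (M : Type u) [AddCommGroup M] [Module K M] : AddCommGroup (Ten K C M) :=
  TensorProduct.addCommGroup

instance Ten.mod (M : Type u) [AddCommGroup M] [Module K M] : Module K (Ten K C M) :=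
  TensorProduct.leftModule

variable {K}

/-- The map `id ⊗ f`. -/
def lmap {M N : Type u} [AddCommGroup M] [Module K M] [AddCommGroup N] [Module K N]
    (f : M →ₗ[K] N) : Ten K C M →ₗ[K] Ten K C N := f.lTensor C

variable (K)

/-- The map `C ⊗ M → C ⊗ (C ⊗ M)` given by the comultiplication of `C`. -/
noncomputable def comulT [Coalgebra K C] (M : Type u) [AddCommGroup M] [Module K M] :
    Ten K C M →ₗ[K] Ten K C (Ten K C M) :=
  (TensorProduct.assoc K C C M).toLinearMap.comp
    ((CoalgebraStruct.comul (R := K) (A := C)).rTensor M)

/-- The map `C ⊗ M → M` given by the counit of `C`. -/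
noncomputable def counitT [Coalgebra K C] (M : Type u) [AddCommGroup M] [Module K M] :
    Ten K C M →ₗ[K] M :=
  (TensorProduct.lid K M).toLinearMap.comp
    ((CoalgebraStruct.counit (R := K) (A := C)).rTensor M)

end Tensor

section Comodules

variable (K : Type u) [CommRing K] (C : Type u) [AddCommGroup C] [Module K C] [Coalgebra K C]

/-- A left comodule over the coalgebra `C`: a vector space with a coassociative and counital
coaction. -/
structure Comod where
  /-- underlying space -/
  carrier : Type u
  [acg : AddCommGroup carrier]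
  [mod : Module K carrier]
  /-- the coaction -/
  coact : carrier →ₗ[K] Ten K C carrier
  coassoc : ∀ m, comulT K C carrier (coact m) = lmap C coact (coact m)
  counit : ∀ m, counitT K C carrier (coact m) = m

attribute [instance] Comod.acg Comod.mod

variable {K C}

/-- A linear map between comodules commutes with the coactions. -/
def IsCohom {A B : Comod K C} (f : A.carrier →ₗ[K] B.carrier) : Prop :=
  ∀ m, B.coact (f m) = lmap C f (A.coact m)

omit [Coalgebra K C] in
theorem lmap_comp {M N P : Type u} [AddCommGroup M] [Module K M] [AddCommGroup N] [Module K N]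
    [AddCommGroup P] [Module K P] (f : M →ₗ[K] N) (g : N →ₗ[K] P) (z : Ten K C M) :
    lmap C (g.comp f) z = lmap C g (lmap C f z) := by
  rw [lmap, LinearMap.lTensor_comp]
  rfl

theorem IsCohom.id (A : Comod K C) : IsCohom (A := A) (B := A) LinearMap.id := by
  intro m
  rw [lmap, LinearMap.lTensor_id]
  rfl

theorem IsCohom.comp {A B D : Comod K C} {f : A.carrier →ₗ[K] B.carrier}
    {g : B.carrier →ₗ[K] D.carrier} (hf : IsCohom f) (hg : IsCohom g) :
    IsCohom (g.comp f) := by
  intro m
  rw [LinearMap.comp_apply, hg, hf, lmap_comp]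

theorem IsCohom.zero (A B : Comod K C) : IsCohom (A := A) (B := B) 0 := by
  intro m
  rw [lmap, LinearMap.lTensor_zero, LinearMap.zero_apply, map_zero]
  rfl

theorem IsCohom.add {A B : Comod K C} {f g : A.carrier →ₗ[K] B.carrier}
    (hf : IsCohom f) (hg : IsCohom g) : IsCohom (f + g) := by
  intro m
  rw [LinearMap.add_apply, map_add, hf, hg, lmap, lmap, lmap, LinearMap.lTensor_add]
  rfl

theorem IsCohom.smul {A B : Comod K C} (a : K) {f : A.carrier →ₗ[K] B.carrier}
    (hf : IsCohom f) : IsCohom (a • f) := by
  intro m
  rw [LinearMap.smul_apply, map_smul, hf, lmap, lmap, LinearMap.lTensor_smul]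
  rfl

/-- The subspace of morphisms of comodules among the linear maps. -/
def homs (A B : Comod K C) : Submodule K (A.carrier →ₗ[K] B.carrier) where
  carrier := {f | IsCohom f}
  add_mem' := IsCohom.add
  zero_mem' := IsCohom.zero A B
  smul_mem' a _ := IsCohom.smul a

/-- Morphisms of comodules: linear maps that commute with the coactions. -/
def Mor (A B : Comod K C) : Type u := homs A B

instance Mor.acg (A B : Comod K C) : AddCommGroup (Mor A B) := Submodule.addCommGroup (homs A B)

instance Mor.mod (A B : Comod K C) : Module K (Mor A B) := Submodule.module (homs A B)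

/-- The underlying linear map of a morphism. -/
def Mor.lin {A B : Comod K C} (f : Mor A B) : A.carrier →ₗ[K] B.carrier := Subtype.val f

theorem Mor.comm {A B : Comod K C} (f : Mor A B) : IsCohom f.lin := Subtype.property f

/-- Constructor for morphisms. -/
def Mor.mk {A B : Comod K C} (f : A.carrier →ₗ[K] B.carrier) (hf : IsCohom f) : Mor A B :=
  ⟨f, hf⟩

theorem Mor.ext {A B : Comod K C} {f g : Mor A B} (h : f.lin = g.lin) : f = g :=
  Subtype.ext h

/-- identity -/
def Mor.one (A : Comod K C) : Mor A A := Mor.mk LinearMap.id (IsCohom.id A)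

/-- composition -/
def Mor.comp {A B D : Comod K C} (f : Mor A B) (g : Mor B D) : Mor A D :=
  Mor.mk (g.lin.comp f.lin) (IsCohom.comp f.comm g.comm)

theorem Mor.one_comp {A B : Comod K C} (f : Mor A B) : (Mor.one A).comp f = f := rfl

theorem Mor.comp_one {A B : Comod K C} (f : Mor A B) : f.comp (Mor.one B) = f := rfl

theorem Mor.assoc {A B D E : Comod K C} (f : Mor A B) (g : Mor B D) (h : Mor D E) :
    (f.comp g).comp h = f.comp (g.comp h) := rfl

instance : Category (Comod K C) where
  Hom A B := Mor A B
  id A := Mor.one A
  comp f g := Mor.comp f g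
  id_comp f := Mor.one_comp f
  comp_id f := Mor.comp_one f
  assoc f g h := Mor.assoc f g h

theorem Mor.add_comp {A B D : Comod K C} (f f' : Mor A B) (g : Mor B D) :
    (f + f').comp g = f.comp g + f'.comp g :=
  Mor.ext (LinearMap.comp_add _ _ _)

theorem Mor.comp_add {A B D : Comod K C} (f : Mor A B) (g g' : Mor B D) :
    f.comp (g + g') = f.comp g + f.comp g' :=
  Mor.ext (LinearMap.add_comp _ _ _)

theorem Mor.smul_comp {A B D : Comod K C} (a : K) (f : Mor A B) (g : Mor B D) :
    (a • f).comp g = a • (f.comp g) :=
  Mor.ext (LinearMap.comp_smul _ _ _)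

theorem Mor.comp_smul {A B D : Comod K C} (f : Mor A B) (a : K) (g : Mor B D) :
    f.comp (a • g) = a • (f.comp g) :=
  Mor.ext (LinearMap.smul_comp _ _ _)

instance : Preadditive (Comod K C) where
  homGroup A B := Mor.acg A B
  add_comp _ _ _ f f' g := Mor.add_comp f f' g
  comp_add _ _ _ f g g' := Mor.comp_add f g g'

instance : Linear K (Comod K C) where
  homModule A B := Mor.mod A B
  smul_comp _ _ _ a f g := Mor.smul_comp a f g
  comp_smul _ _ _ f a g := Mor.comp_smul f a g

/-- The underlying linear map of a morphism. -/
def Comod.lin {A B : Comod K C} (f : A ⟶ B) : A.carrier →ₗ[K] B.carrier := Mor.lin f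

/-- Exactness of a sequence of comodules: exactness of the underlying linear maps. -/
def CExact {A B D : Comod K C} (f : A ⟶ B) (g : B ⟶ D) : Prop :=
  Function.Exact (Comod.lin f) (Comod.lin g)

end Comodules

section Modules

/-- Right modules over a ring `A`, as modules over the opposite ring. -/
abbrev RMod (A : Type u) [Ring A] := ModuleCat.{u} Aᵐᵒᵖ

/-- Exactness of a sequence of modules. -/
def MExact {R : Type u} [Ring R] {X Y Z : ModuleCat.{u} R} (f : X ⟶ Y) (g : Y ⟶ Z) : Prop :=
  Function.Exact f.hom g.hom

open scoped ModuleCat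

variable (K : Type u) [Field K]

/-- Right modules that are finite-dimensional over `K`. -/
def IsFD (A : Type u) [Ring A] [Algebra K A] : ObjectProperty (RMod A) :=
  fun M => Module.Finite K M

/-- The category of finite-dimensional right modules over a `K`-algebra. -/
abbrev FDMod (A : Type u) [Ring A] [Algebra K A] := (IsFD K A).FullSubcategory

/-- Full, faithful, exact, `K`-linear functors between categories of finite-dimensional modules.
Exact: exact sequences `X ⟶ Y ⟶ Z` are carried to exact sequences. -/
structure IsFullExact {A B : Type u} [Ring A] [Algebra K A] [Ring B] [Algebra K B]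
    (G : FDMod K A ⥤ FDMod K B) : Prop where
  full : G.Full
  faithful : G.Faithful
  additive : G.Additive
  linear : G.Linear K
  exact : ∀ (X Y Z : FDMod K A) (f : X ⟶ Y) (g : Y ⟶ Z),
    MExact f.hom g.hom → MExact (G.map f).hom (G.map g).hom

/-- `B` is fully wild: there is a full, faithful, exact, `K`-linear functor from the
finite-dimensional right `K⟨x,y⟩`-modules to the finite-dimensional right `B`-modules. -/
def FullyWild (B : Type u) [Ring B] [Algebra K B] : Prop :=
  ∃ G : FDMod K (FreeAlgebra K (Fin 2)) ⥤ FDMod K B, IsFullExact K G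

end Modules

/-- An object of a preadditive category is indecomposable: it is not zero and is not the direct
sum of two nonzero objects. -/
def Indec {A : Type*} [Category A] [Preadditive A] (X : A) : Prop :=
  ¬ Limits.IsZero X ∧
    ∀ (Y Z : A) (i : Y ⟶ X) (p : X ⟶ Y) (j : Z ⟶ X) (q : X ⟶ Z),
      i ≫ p = 𝟙 Y → j ≫ q = 𝟙 Z → p ≫ i + q ≫ j = 𝟙 X →
      Limits.IsZero Y ∨ Limits.IsZero Z

section Embedding

open scoped ModuleCat

variable (K : Type u) [Field K] {C : Type u} [AddCommGroup C] [Module K C] [Coalgebra K C]
  {W : Type u} [Ring W] [Algebra K W]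

/-- Representation embeddings of the comodules over `C` into the right modules over `W`:
`K`-linear exact functors that preserve indecomposability and reflect isomorphism classes. -/
structure IsRepEmbedding (F : Comod K C ⥤ RMod W) : Prop where
  additive : F.Additive
  linear : F.Linear K
  exact : ∀ (X Y Z : Comod K C) (f : X ⟶ Y) (g : Y ⟶ Z),
    CExact f g → MExact (F.map f) (F.map g)
  indec : ∀ X : Comod K C, Indec X → Indec (F.obj X)
  reflects : ∀ X Y : Comod K C, Nonempty (F.obj X ≅ F.obj Y) → Nonempty (X ≅ Y)

end Embedding

end Q43.RE
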