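import Mathlib

/-!
# Three relations on sequences that make a well ordered set rigid

`X` is a well ordered set with a largest element. We define three relations on sequences
`r : ℕ → X` such that the identity is the only self map of `X` that preserves all three.
-/

set_option linter.unusedSectionVars false

namespace Q43.RE

universe u

variable {X : Type u} [LinearOrder X] [WellFoundedLT X] [OrderTop X]

/-- `d` is the supremum of a strictly increasing sequence. -/
def IsLim (d : X) : Prop := ∃ a : ℕ → X, StrictMono a ∧ IsLUB (Set.range a) d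

open Classical in
/-- A chosen strictly increasing sequence with supremum `d` (junk if there is none). -/
noncomputable def ladder (d : X) : ℕ → X :=
  if h : IsLim d then h.choose else fun _ => d

theorem ladder_spec {d : X} (h : IsLim d) :
    StrictMono (ladder d) ∧ IsLUB (Set.range (ladder d)) d := by
  unfold ladder
  rw [dif_pos h]
  exact h.choose_spec

/-- first relation: `r 0 < r 1` -/
def R1 (r : ℕ → X) : Prop := r 0 < r 1

/-- second relation: the tail of `r` is the chosen ladder of the limit element `r 0` -/
def R2 (r : ℕ → X) : Prop := IsLim (r 0) ∧ ∀ n, r (n + 1) = ladder (r 0) n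

/-- third relation: the tail of `r` is strictly increasing with supremum `r 0` -/
def R3 (r : ℕ → X) : Prop :=
  StrictMono (fun n => r (n + 1)) ∧ IsLUB (Set.range fun n => r (n + 1)) (r 0)

/-- the sequence `(d, a 0, a 1, ...)` -/
def cons (d : X) (a : ℕ → X) : ℕ → X
  | 0 => d
  | n + 1 => a n

omit [LinearOrder X] [WellFoundedLT X] [OrderTop X] in
@[simp] theorem cons_zero (d : X) (a : ℕ → X) : cons d a 0 = d := rfl

omit [LinearOrder X] [WellFoundedLT X] [OrderTop X] in
@[simp] theorem cons_succ (d : X) (a : ℕ → X) (n : ℕ) : cons d a (n + 1) = a n := rfl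

/-- Every sequence has a supremum. -/
theorem exists_isLUB (a : ℕ → X) : ∃ d, IsLUB (Set.range a) d := by
  have hne : (upperBounds (Set.range a)).Nonempty := ⟨⊤, fun _ _ => le_top⟩
  refine ⟨WellFounded.min wellFounded_lt _ hne, WellFounded.min_mem _ _ hne, ?_⟩
  intro b hb
  exact not_lt.1 (WellFounded.not_lt_min wellFounded_lt _ hb)

/-- **Rigidity.** A self map that preserves the three relations is the identity. -/
theorem eq_id_of_preserves (f : X → X) (h1 : ∀ r, R1 r → R1 (fun n => f (r n)))
    (h2 : ∀ r, R2 r → R2 (fun n => f (r n))) (h3 : ∀ r, R3 r → R3 (fun n => f (r n))) :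
    ∀ x, f x = x := by
  have hmono : StrictMono f := by
    intro a b hab
    have := h1 (cons a (fun _ => b)) (by simpa [R1, cons] using hab)
    simpa [R1, cons] using this
  have hge : ∀ x, x ≤ f x := fun x => hmono.le_apply
  intro a
  by_contra hne
  have hlt : a < f a := lt_of_le_of_ne (hge a) (Ne.symm hne)
  -- the orbit
  set s : ℕ → X := fun n => f^[n] a with hs
  have hss : ∀ n, s (n + 1) = f (s n) := fun n => Function.iterate_succ_apply' f n a
  have hsm : StrictMono s := by
    apply strictMono_nat_of_lt_succ
    intro n
    induction n with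
    | zero => simpa [hs] using hlt
    | succ n ih =>
      rw [hss (n + 1), hss n]
      have := hmono ih
      rwa [hss n] at this
  obtain ⟨d, hd⟩ := exists_isLUB s
  have hlim : IsLim d := ⟨s, hsm, hd⟩
  -- f d = d
  have hfd : f d = d := by
    have h := h3 (cons d s) ⟨by simpa using hsm, by simpa using hd⟩
    have h' : IsLUB (Set.range fun n => f (s n)) (f d) := by simpa [R3] using h.2
    have h'' : IsLUB (Set.range fun n => f (s n)) d := by
      constructor
      · rintro _ ⟨n, rfl⟩
        show f (s n) ≤ d
        rw [← hss n]
        exact hd.1 ⟨n + 1, rfl⟩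
      · intro b hb
        apply hd.2
        rintro _ ⟨n, rfl⟩
        have : f (s n) ≤ b := hb ⟨n, rfl⟩
        exact (hge (s n)).trans this
    exact h'.unique h''
  obtain ⟨hl1, hl2⟩ := ladder_spec hlim
  have hfl : ∀ n, f (ladder d n) = ladder d n := by
    have h := h2 (cons d (ladder d)) ⟨by simpa using hlim, by intro n; simp⟩
    intro n
    have := h.2 n
    simpa [hfd] using this
  -- some rung is above a
  have had : a < d := lt_of_lt_of_le hlt (by
    have : s 1 ≤ d := hd.1 ⟨1, rfl⟩
    simpa [hs] using this)
  obtain ⟨n, hn⟩ : ∃ n, a < ladder d n := by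
    by_contra hcon
    push Not at hcon
    have : d ≤ a := hl2.2 (by rintro _ ⟨n, rfl⟩; exact hcon n)
    exact absurd had (not_lt.2 this)
  have hk : ∀ k, s k < ladder d n := by
    intro k
    induction k with
    | zero => simpa [hs] using hn
    | succ k ih =>
      rw [hss k]
      have := hmono ih
      rwa [hfl n] at this
  have hle : d ≤ ladder d n := hd.2 (by rintro _ ⟨k, rfl⟩; exact (hk k).le)
  have hlt' : ladder d n < ladder d (n + 1) := hl1 (Nat.lt_succ_self n)
  have : ladder d (n + 1) ≤ d := hl2.1 ⟨n + 1, rfl⟩
  exact absurd (lt_of_lt_of_le hlt' this) (not_lt.2 hle)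

end Q43.RE
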