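import Mathlib
import Pool.Agent.Q43.RE.Rigid
import Pool.Agent.Q43.RE.Core

/-!
# Vector spaces with operators

`Ops K J`: vector spaces with a family of operators indexed by `J`. The functor `Phi` from
`Ops K L`, `L` arbitrary, to vector spaces with eight operators is full and faithful.
-/

open CategoryTheory

set_option linter.unusedSectionVars false

namespace Q43.RE

universe u w w'

/-- vector spaces with operators -/
structure Ops (K : Type u) [Field K] (J : Type w) where
  /-- underlying space -/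
  V : Type u
  [acg : AddCommGroup V]
  [mod : Module K V]
  /-- the operators -/
  op : J → V →ₗ[K] V

attribute [instance] Ops.acg Ops.mod

variable {K : Type u} [Field K] {J : Type w} {L : Type u}

/-- linear maps commuting with the operators -/
@[ext]
structure Ops.Hom (A B : Ops K J) where
  /-- underlying map -/
  lin : A.V →ₗ[K] B.V
  comm : ∀ j v, lin (A.op j v) = B.op j (lin v)

instance : Category (Ops K J) where
  Hom A B := Ops.Hom A B
  id A := ⟨LinearMap.id, fun _ _ => rfl⟩
  comp f g := ⟨g.lin.comp f.lin, fun j v => by simp [f.comm, g.comm]⟩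

/-- underlying linear map of a morphism -/
def Ops.lin {A B : Ops K J} (f : A ⟶ B) : A.V →ₗ[K] B.V := Ops.Hom.lin f

theorem Ops.comm {A B : Ops K J} (f : A ⟶ B) (j : J) (v : A.V) :
    Ops.lin f (A.op j v) = B.op j (Ops.lin f v) := Ops.Hom.comm f j v

theorem Ops.hom_ext {A B : Ops K J} {f g : A ⟶ B} (h : ∀ v, Ops.lin f v = Ops.lin g v) :
    f = g :=
  Ops.Hom.ext (LinearMap.ext h)

@[simp] theorem Ops.lin_id (A : Ops K J) (v : A.V) : Ops.lin (𝟙 A) v = v := rfl

@[simp] theorem Ops.lin_comp {A B C : Ops K J} (f : A ⟶ B) (g : B ⟶ C) (v : A.V) :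
    Ops.lin (f ≫ g) v = Ops.lin g (Ops.lin f v) := rfl

/-- constructor for morphisms -/
def Ops.mkHom {A B : Ops K J} (l : A.V →ₗ[K] B.V) (h : ∀ j v, l (A.op j v) = B.op j (l v)) :
    A ⟶ B := (⟨l, h⟩ : Ops.Hom A B)

@[simp] theorem Ops.lin_mkHom {A B : Ops K J} (l : A.V →ₗ[K] B.V)
    (h : ∀ j v, l (A.op j v) = B.op j (l v)) (v : A.V) : Ops.lin (Ops.mkHom l h) v = l v := rfl

/-! ### the eight operators -/

section Phi

variable (X : Type u) (rel : ℕ → (ℕ → X) → Prop) (cd : X → Option L)

variable (K) in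
/-- substitution operator -/
noncomputable def opSub (σ : ℕ → ℕ) (M : Type u) [AddCommGroup M] [Module K M] :
    ((ℕ → X) →₀ M) →ₗ[K] ((ℕ → X) →₀ M) :=
  Finsupp.lmapDomain M K (fun s n => s (σ n))

variable (K) in
open Classical in
/-- projection operator -/
noncomputable def opProj (p : (ℕ → X) → Prop) (M : Type u) [AddCommGroup M] [Module K M] :
    ((ℕ → X) →₀ M) →ₗ[K] ((ℕ → X) →₀ M) where
  toFun x := x.filter p
  map_add' _ _ := Finsupp.filter_add
  map_smul' _ _ := Finsupp.filter_smul

/-- the operator that carries the operators of `A` -/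
noncomputable def opCarry (A : Ops K L) :
    ((ℕ → X) →₀ A.V) →ₗ[K] ((ℕ → X) →₀ A.V) :=
  Finsupp.lsum K (fun s => (Finsupp.lsingle s).comp
    (match cd (s 0) with
      | none => 0
      | some l => A.op l))

theorem opCarry_single (A : Ops K L) (s : ℕ → X) (m : A.V) (l : L) (h : cd (s 0) = some l) :
    opCarry X cd A (Finsupp.single s m) = Finsupp.single s (A.op l m) := by
  unfold opCarry
  rw [Finsupp.lsum_single, LinearMap.comp_apply, h]
  rfl

theorem opCarry_single_none (A : Ops K L) (s : ℕ → X) (m : A.V) (h : cd (s 0) = none) :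
    opCarry X cd A (Finsupp.single s m) = 0 := by
  unfold opCarry
  rw [Finsupp.lsum_single, LinearMap.comp_apply, h]
  simp

/-- The object with eight operators. -/
noncomputable def Phi (A : Ops K L) : Ops K (Fin 8) where
  V := (ℕ → X) →₀ A.V
  op j := match j with
    | 0 => opSub K X sE A.V
    | 1 => opSub K X sO A.V
    | 2 => opSub K X sS A.V
    | 3 => opSub K X sZ A.V
    | 4 => opProj K X (fun s => rel 0 (fun n => s (sO n))) A.V
    | 5 => opProj K X (fun s => rel 1 (fun n => s (sO n))) A.V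
    | 6 => opProj K X (fun s => rel 2 (fun n => s (sO n))) A.V
    | 7 => opCarry X cd A

/-- underlying linear map of `Phi` on morphisms -/
noncomputable def phiLin {A B : Ops K L} (f : A ⟶ B) :
    ((ℕ → X) →₀ A.V) →ₗ[K] ((ℕ → X) →₀ B.V) := Finsupp.mapRange.linearMap (Ops.lin f)

@[simp] theorem phiLin_single {A B : Ops K L} (f : A ⟶ B) (s : ℕ → X) (m : A.V) :
    phiLin X f (Finsupp.single s m) = Finsupp.single s (Ops.lin f m) := by
  simp [phiLin]

theorem phiLin_sub {A B : Ops K L} (f : A ⟶ B) (σ : ℕ → ℕ) (x : (ℕ → X) →₀ A.V) :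
    phiLin X f (opSub K X σ A.V x) = opSub K X σ B.V (phiLin X f x) := by
  induction x using Finsupp.induction_linear with
  | zero => simp
  | add x y hx hy => rw [map_add, map_add, map_add, map_add, hx, hy]
  | single s m => simp [opSub]

theorem phiLin_proj {A B : Ops K L} (f : A ⟶ B) (p : (ℕ → X) → Prop) (x : (ℕ → X) →₀ A.V) :
    phiLin X f (opProj K X p A.V x) = opProj K X p B.V (phiLin X f x) := by
  induction x using Finsupp.induction_linear with
  | zero => simp
  | add x y hx hy => rw [map_add, map_add, map_add, map_add, hx, hy]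
  | single s m =>
    classical
    rw [phiLin_single]
    by_cases h : p s
    · simp [opProj, Finsupp.filter_single_of_pos _ h]
    · simp [opProj, Finsupp.filter_single_of_neg _ h]

theorem phiLin_carry {A B : Ops K L} (f : A ⟶ B) (x : (ℕ → X) →₀ A.V) :
    phiLin X f (opCarry X cd A x) = opCarry X cd B (phiLin X f x) := by
  induction x using Finsupp.induction_linear with
  | zero => simp
  | add x y hx hy => rw [map_add, map_add, map_add, map_add, hx, hy]
  | single s m =>
    rw [phiLin_single]
    rcases h : cd (s 0) with _ | l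
    · rw [opCarry_single_none X cd A s m h, opCarry_single_none X cd B s _ h, map_zero]
    · rw [opCarry_single X cd A s m l h, opCarry_single X cd B s _ l h, phiLin_single,
        Ops.comm]

theorem phiLin_comm {A B : Ops K L} (f : A ⟶ B) (j : Fin 8) (x : (Phi X rel cd A).V) :
    phiLin X f ((Phi X rel cd A).op j x) = (Phi X rel cd B).op j (phiLin X f x) := by
  match j with
  | 0 => exact phiLin_sub X f sE x
  | 1 => exact phiLin_sub X f sO x
  | 2 => exact phiLin_sub X f sS x
  | 3 => exact phiLin_sub X f sZ x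
  | 4 => exact phiLin_proj X f _ x
  | 5 => exact phiLin_proj X f _ x
  | 6 => exact phiLin_proj X f _ x
  | 7 => exact phiLin_carry X cd f x

/-- `Phi` on morphisms -/
noncomputable def phiMap {A B : Ops K L} (f : A ⟶ B) : Phi X rel cd A ⟶ Phi X rel cd B :=
  Ops.mkHom (phiLin X f) (phiLin_comm X rel cd f)

theorem full_aux [Nonempty X]
    (hrig : ∀ f : X → X, (∀ j, j < 3 → ∀ r, rel j r → rel j (fun n => f (r n))) → ∀ x, f x = x)
    (hcd : ∀ l, ∃ x, cd x = some l)
    {A B : Ops K L} (φ : ((ℕ → X) →₀ A.V) →ₗ[K] ((ℕ → X) →₀ B.V))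
    (h0 : ∀ x, φ (opSub K X sE A.V x) = opSub K X sE B.V (φ x))
    (h1 : ∀ x, φ (opSub K X sO A.V x) = opSub K X sO B.V (φ x))
    (h2 : ∀ x, φ (opSub K X sS A.V x) = opSub K X sS B.V (φ x))
    (h3 : ∀ x, φ (opSub K X sZ A.V x) = opSub K X sZ B.V (φ x))
    (h4 : ∀ j, j < 3 → ∀ x, φ (opProj K X (fun s => rel j (fun n => s (sO n))) A.V x) =
      opProj K X (fun s => rel j (fun n => s (sO n))) B.V (φ x))
    (h5 : ∀ x, φ (opCarry X cd A x) = opCarry X cd B (φ x)) :
    ∃ f : A ⟶ B, phiLin X f = φ := by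
  classical
  have hsub : ∀ σ : ℕ → ℕ, (∀ x, φ (opSub K X σ A.V x) = opSub K X σ B.V (φ x)) →
      ∀ (m : A.V) (s : ℕ → X),
      φ (Finsupp.single (fun n => s (σ n)) m) = sub σ (φ (Finsupp.single s m)) := by
    intro σ h m s
    have h1 := h (Finsupp.single s m)
    have h2 : opSub K X σ A.V (Finsupp.single s m) = Finsupp.single (fun n => s (σ n)) m := by
      simp [opSub]
    rw [h2] at h1
    rw [h1]
    rfl
  have hproj : ∀ p : (ℕ → X) → Prop, (∀ x, φ (opProj K X p A.V x) = opProj K X p B.V (φ x)) →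
      ∀ (m : A.V) (s : ℕ → X), p s → ∀ u ∈ (φ (Finsupp.single s m)).support, p u := by
    intro p h m s hp u hu
    have h1 := h (Finsupp.single s m)
    have h2 : opProj K X p A.V (Finsupp.single s m) = Finsupp.single s m := by
      simp [opProj, Finsupp.filter_single_of_pos _ hp]
    rw [h2] at h1
    rw [h1] at hu
    have h3 : u ∈ ((φ (Finsupp.single s m)).filter p).support := hu
    rw [Finsupp.support_filter, Finset.mem_filter] at h3
    exact h3.2
  have hcore : ∀ m : A.V, ∃ c : B.V, ∀ s : ℕ → X,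
      φ (Finsupp.single s m) = Finsupp.single s c := by
    intro m
    apply core (fun j r => j < 3 → rel j r)
      (fun f hf => hrig f (fun j hj r hr => hf j r (fun _ => hr) hj))
      (fun s => φ (Finsupp.single s m))
    · exact fun s => hsub sE h0 m s
    · exact fun s => hsub sO h1 m s
    · exact fun s => hsub sS h2 m s
    · exact fun s => hsub sZ h3 m s
    · intro j s hj u hu hj3
      exact hproj _ (h4 j hj3) m s (hj hj3) u hu
  let s₀ : ℕ → X := fun _ => Classical.arbitrary X
  let ψ : A.V →ₗ[K] B.V := (Finsupp.lapply s₀).comp (φ.comp (Finsupp.lsingle s₀))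
  have hψ : ∀ (m : A.V) (s : ℕ → X), φ (Finsupp.single s m) = Finsupp.single s (ψ m) := by
    intro m s
    obtain ⟨c, hc⟩ := hcore m
    have h1 : ψ m = c := by
      show (φ (Finsupp.single s₀ m)) s₀ = c
      rw [hc s₀, Finsupp.single_eq_same]
    rw [hc s, h1]
  have hcomm : ∀ l v, ψ (A.op l v) = B.op l (ψ v) := by
    intro l v
    obtain ⟨x, hx⟩ := hcd l
    have h1 := h5 (Finsupp.single (fun _ => x) v)
    rw [opCarry_single X cd A _ v l hx, hψ, hψ, opCarry_single X cd B _ _ l hx] at h1
    exact Finsupp.single_injective _ h1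
  refine ⟨Ops.mkHom ψ hcomm, ?_⟩
  apply Finsupp.lhom_ext
  intro s m
  rw [hψ m s, phiLin_single, Ops.lin_mkHom]

/-- `Phi` is full. -/
theorem phi_full [Nonempty X]
    (hrig : ∀ f : X → X, (∀ j, j < 3 → ∀ r, rel j r → rel j (fun n => f (r n))) → ∀ x, f x = x)
    (hcd : ∀ l, ∃ x, cd x = some l)
    {A B : Ops K L} (φ : Phi X rel cd A ⟶ Phi X rel cd B) :
    ∃ f : A ⟶ B, phiMap X rel cd f = φ := by
  obtain ⟨f, hf⟩ := full_aux X rel cd hrig hcd (Ops.lin φ)
    (fun x => Ops.comm φ 0 x) (fun x => Ops.comm φ 1 x) (fun x => Ops.comm φ 2 x)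
    (fun x => Ops.comm φ 3 x)
    (fun j hj x => by
      interval_cases j
      · exact Ops.comm φ 4 x
      · exact Ops.comm φ 5 x
      · exact Ops.comm φ 6 x)
    (fun x => Ops.comm φ 7 x)
  refine ⟨f, Ops.hom_ext fun x => ?_⟩
  exact congrArg (fun t => t x) hf

/-- `Phi` is faithful. -/
theorem phi_faithful [Nonempty X] {A B : Ops K L} (f g : A ⟶ B)
    (h : phiMap X rel cd f = phiMap X rel cd g) : f = g := by
  apply Ops.hom_ext
  intro v
  let s₀ : ℕ → X := fun _ => Classical.arbitrary X
  have h1 : phiLin X f (Finsupp.single s₀ v) = phiLin X g (Finsupp.single s₀ v) := by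
    have := congrArg (fun t => Ops.lin t (Finsupp.single s₀ v : (ℕ → X) →₀ A.V)) h
    exact this
  rw [phiLin_single, phiLin_single] at h1
  exact Finsupp.single_injective _ h1

theorem phi_exact_aux {A B C : Ops K L} (f : A ⟶ B) (g : B ⟶ C)
    (h : Function.Exact (Ops.lin f) (Ops.lin g)) :
    Function.Exact (phiLin X f) (phiLin X g) := by
  classical
  intro y
  constructor
  · intro hy
    have hy' : ∀ s, ∃ a : A.V, Ops.lin f a = y s := by
      intro s
      have h1 : (phiLin X g y) s = 0 := by
        rw [hy]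
        rfl
      have h2 : Ops.lin g (y s) = 0 := by
        simpa [phiLin] using h1
      exact (h _).1 h2
    choose a ha using hy'
    refine ⟨y.sum (fun s _ => Finsupp.single s (a s)), ?_⟩
    rw [Finsupp.sum, map_sum]
    simp only [phiLin_single, ha]
    exact Finsupp.sum_single y
  · rintro ⟨x, rfl⟩
    ext s
    simp only [phiLin, Finsupp.mapRange.linearMap_apply, Finsupp.mapRange_apply,
      Finsupp.coe_zero, Pi.zero_apply]
    exact (h _).2 ⟨_, rfl⟩

/-- `Phi` preserves exactness. -/
theorem phi_exact {A B C : Ops K L} (f : A ⟶ B) (g : B ⟶ C)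
    (h : Function.Exact (Ops.lin f) (Ops.lin g)) :
    Function.Exact (Ops.lin (phiMap X rel cd f)) (Ops.lin (phiMap X rel cd g)) :=
  phi_exact_aux X f g h

theorem phi_lin {A B : Ops K L} (f g h : A ⟶ B) (a : K)
    (hh : ∀ v, Ops.lin h v = a • Ops.lin f v + Ops.lin g v) (x : (Phi X rel cd A).V) :
    Ops.lin (phiMap X rel cd h) x =
      a • Ops.lin (phiMap X rel cd f) x + Ops.lin (phiMap X rel cd g) x := by
  show phiLin X h x = a • phiLin X f x + phiLin X g x
  ext s
  simp [phiLin, hh]

end Phi

end Q43.RE
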