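import Mathlib
import Pool.Agent.Q43.RE.Ops

/-!
# Kronecker objects and the block functor

`Kr` turns a vector space with `n` operators into a locally finite space with `n + 2` operators.
`Br` turns a space with `n + 1` operators into a space with two operators.
-/

open CategoryTheory

set_option linter.unusedSectionVars false

namespace Q43.RE

universe u w

variable {K : Type u} [Field K] {n : ℕ}

/-! ### Kronecker objects -/

/-- `(a, b) ↦ (a, 0)` -/
def krE (A : Ops K (Fin n)) : (A.V × A.V) →ₗ[K] (A.V × A.V) :=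
  (LinearMap.inl K A.V A.V).comp (LinearMap.fst K A.V A.V)

/-- `(a, b) ↦ (0, t a)` -/
def krA (A : Ops K (Fin n)) (t : A.V →ₗ[K] A.V) : (A.V × A.V) →ₗ[K] (A.V × A.V) :=
  (LinearMap.inr K A.V A.V).comp (t.comp (LinearMap.fst K A.V A.V))

@[simp] theorem krE_apply (A : Ops K (Fin n)) (v : A.V × A.V) : krE A v = (v.1, 0) := rfl

@[simp] theorem krA_apply (A : Ops K (Fin n)) (t : A.V →ₗ[K] A.V) (v : A.V × A.V) :
    krA A t v = (0, t v.1) := rfl

/-- the Kronecker object of `A` -/
def Kr (A : Ops K (Fin n)) : Ops K (Fin (n + 2)) where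
  V := A.V × A.V
  op := Fin.cases (krE A) (Fin.cases (krA A LinearMap.id) (fun k => krA A (A.op k)))

/-- the underlying map of `Kr` on morphisms -/
def krLin {A B : Ops K (Fin n)} (f : A ⟶ B) : (A.V × A.V) →ₗ[K] (B.V × B.V) :=
  (Ops.lin f).prodMap (Ops.lin f)

@[simp] theorem krLin_apply {A B : Ops K (Fin n)} (f : A ⟶ B) (v : A.V × A.V) :
    krLin f v = (Ops.lin f v.1, Ops.lin f v.2) := rfl

theorem krLin_comm {A B : Ops K (Fin n)} (f : A ⟶ B) (j : Fin (n + 2)) (v : (Kr A).V) :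
    krLin f ((Kr A).op j v) = (Kr B).op j (krLin f v) := by
  refine Fin.cases ?_ (fun j => Fin.cases ?_ (fun k => ?_) j) j
  · show krLin f (krE A v) = krE B (krLin f v)
    simp
  · show krLin f (krA A LinearMap.id v) = krA B LinearMap.id (krLin f v)
    simp
  · show krLin f (krA A (A.op k) v) = krA B (B.op k) (krLin f v)
    simp [Ops.comm]

/-- `Kr` on morphisms -/
def krMap {A B : Ops K (Fin n)} (f : A ⟶ B) : Kr A ⟶ Kr B := Ops.mkHom (krLin f) (krLin_comm f)

theorem kr_full_aux {A B : Ops K (Fin n)} (φ : (A.V × A.V) →ₗ[K] (B.V × B.V))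
    (h0 : ∀ v, φ (krE A v) = krE B (φ v)) (h1 : ∀ v, φ (krA A LinearMap.id v) =
      krA B LinearMap.id (φ v)) (h2 : ∀ k v, φ (krA A (A.op k) v) = krA B (B.op k) (φ v)) :
    ∃ f : A ⟶ B, krLin f = φ := by
  have e1 : ∀ a, (φ (a, 0)).2 = 0 := by
    intro a
    have := h0 (a, 0)
    simp only [krE_apply] at this
    rw [this]
  have e2 : ∀ b, φ (0, b) = (0, (φ (b, 0)).1) := by
    intro b
    have := h1 (b, 0)
    simpa using this
  have e3 : ∀ k a, (φ (A.op k a, 0)).1 = B.op k (φ (a, 0)).1 := by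
    intro k a
    have := h2 k (a, 0)
    simp only [krA_apply] at this
    rw [e2] at this
    exact congrArg Prod.snd this
  refine ⟨Ops.mkHom ((LinearMap.fst K B.V B.V).comp (φ.comp (LinearMap.inl K A.V A.V))) ?_, ?_⟩
  · intro k v
    exact e3 k v
  · apply LinearMap.ext
    rintro ⟨a, b⟩
    have h : ((a, b) : A.V × A.V) = (a, 0) + (0, b) := by simp
    rw [krLin_apply, Ops.lin_mkHom, Ops.lin_mkHom, h, map_add, e2 b]
    ext
    · simp
    · simp [e1]

theorem kr_full {A B : Ops K (Fin n)} (φ : Kr A ⟶ Kr B) : ∃ f : A ⟶ B, krMap f = φ := by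
  obtain ⟨f, hf⟩ := kr_full_aux (A := A) (B := B) (Ops.lin φ) (fun v => Ops.comm φ 0 v)
    (fun v => Ops.comm φ 1 v) (fun k v => Ops.comm φ k.succ.succ v)
  exact ⟨f, Ops.hom_ext fun x => congrArg (fun t => t x) hf⟩

theorem kr_faithful {A B : Ops K (Fin n)} (f g : A ⟶ B) (h : krMap f = krMap g) : f = g := by
  apply Ops.hom_ext
  intro v
  have h1 : krLin f (v, 0) = krLin g (v, 0) :=
    congrArg (fun t => Ops.lin t ((v, 0) : A.V × A.V)) h
  exact congrArg Prod.fst h1

theorem kr_exact {A B C : Ops K (Fin n)} (f : A ⟶ B) (g : B ⟶ C)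
    (h : Function.Exact (Ops.lin f) (Ops.lin g)) :
    Function.Exact (Ops.lin (krMap f)) (Ops.lin (krMap g)) := by
  rintro ⟨a, b⟩
  constructor
  · intro hy
    have hy' : (Ops.lin g a, Ops.lin g b) = ((0, 0) : C.V × C.V) := hy
    obtain ⟨a', ha'⟩ := (h a).1 (congrArg Prod.fst hy')
    obtain ⟨b', hb'⟩ := (h b).1 (congrArg Prod.snd hy')
    exact ⟨((a', b') : A.V × A.V), by
      show (Ops.lin f a', Ops.lin f b') = (a, b)
      rw [ha', hb']⟩
  · rintro ⟨⟨a', b'⟩, hx⟩
    have hx' : (Ops.lin f a', Ops.lin f b') = ((a, b) : B.V × B.V) := hx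
    show (Ops.lin g a, Ops.lin g b) = ((0, 0) : C.V × C.V)
    have h1 : Ops.lin f a' = a := congrArg Prod.fst hx'
    have h2 : Ops.lin f b' = b := congrArg Prod.snd hx'
    rw [(h a).2 ⟨a', h1⟩, (h b).2 ⟨b', h2⟩]

theorem kr_lin {A B : Ops K (Fin n)} (f g h : A ⟶ B) (a : K)
    (hh : ∀ v, Ops.lin h v = a • Ops.lin f v + Ops.lin g v) (x : (Kr A).V) :
    Ops.lin (krMap h) x = a • Ops.lin (krMap f) x + Ops.lin (krMap g) x := by
  obtain ⟨x1, x2⟩ := x
  show (Ops.lin h x1, Ops.lin h x2) = a • (Ops.lin f x1, Ops.lin f x2) +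
    (Ops.lin g x1, Ops.lin g x2)
  rw [hh, hh]
  rfl

/-- every element lies in a finite-dimensional invariant subspace -/
def LocFin {J : Type w} (A : Ops K J) : Prop :=
  ∀ v : A.V, ∃ S : Submodule K A.V, Module.Finite K S ∧ (∀ j, ∀ x ∈ S, A.op j x ∈ S) ∧ v ∈ S

theorem kr_locFin (A : Ops K (Fin n)) : LocFin (Kr A) := by
  rintro ⟨a, b⟩
  let S1 : Submodule K A.V := Submodule.span K {a}
  let S2 : Submodule K A.V :=
    Submodule.span K ({b} ∪ {a} ∪ Set.range (fun k : Fin n => A.op k a))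
  have hf2 : Module.Finite K S2 := by
    apply Module.Finite.span_of_finite
    exact ((Set.finite_singleton b).union (Set.finite_singleton a)).union (Set.finite_range _)
  have hf1 : Module.Finite K S1 := Module.Finite.span_of_finite K (Set.finite_singleton a)
  refine ⟨S1.prod S2, ?_, ?_, ?_⟩
  · have h : (S1.prod S2).FG :=
      Submodule.FG.prod (Module.Finite.iff_fg.1 hf1) (Module.Finite.iff_fg.1 hf2)
    have h' : Module.Finite K (S1.prod S2) := Module.Finite.iff_fg.2 h
    exact h'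
  · intro j x hx
    obtain ⟨x1, x2⟩ := x
    have hx1 : x1 ∈ S1 := (Submodule.mem_prod.1 hx).1
    obtain ⟨c, hc⟩ := Submodule.mem_span_singleton.1 hx1
    refine Fin.cases ?_ (fun j => Fin.cases ?_ (fun k => ?_) j) j
    · show ((x1, 0) : A.V × A.V) ∈ S1.prod S2
      exact Submodule.mem_prod.2 ⟨hx1, S2.zero_mem⟩
    · show ((0, x1) : A.V × A.V) ∈ S1.prod S2
      refine Submodule.mem_prod.2 ⟨S1.zero_mem, ?_⟩
      show x1 ∈ S2
      rw [← hc]
      exact S2.smul_mem c (Submodule.subset_span (Or.inl (Or.inr rfl)))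
    · show ((0, A.op k x1) : A.V × A.V) ∈ S1.prod S2
      refine Submodule.mem_prod.2 ⟨S1.zero_mem, ?_⟩
      show A.op k x1 ∈ S2
      rw [← hc, map_smul]
      exact S2.smul_mem c (Submodule.subset_span (Or.inr ⟨k, rfl⟩))
  · exact Submodule.mem_prod.2 ⟨Submodule.mem_span_singleton_self a,
      Submodule.subset_span (Or.inl (Or.inl rfl))⟩

/-! ### the block functor -/

/-- block shift -/
def brX (A : Ops K (Fin n)) : (Fin (n + 1) → A.V) →ₗ[K] (Fin (n + 1) → A.V) where
  toFun v := fun i => Fin.cases 0 (fun k => v k.castSucc) i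
  map_add' v w := by
    funext i
    refine Fin.cases ?_ (fun k => ?_) i <;> simp
  map_smul' a v := by
    funext i
    refine Fin.cases ?_ (fun k => ?_) i <;> simp

/-- last block to block zero, block zero to block `k + 1` by the operator `k` -/
def brY (A : Ops K (Fin n)) : (Fin (n + 1) → A.V) →ₗ[K] (Fin (n + 1) → A.V) where
  toFun v := fun i => Fin.cases (v (Fin.last n)) (fun k => A.op k (v 0)) i
  map_add' v w := by
    funext i
    refine Fin.cases ?_ (fun k => ?_) i <;> simp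
  map_smul' a v := by
    funext i
    refine Fin.cases ?_ (fun k => ?_) i <;> simp

@[simp] theorem brX_zero (A : Ops K (Fin n)) (v : Fin (n + 1) → A.V) : brX A v 0 = 0 := rfl
@[simp] theorem brX_succ (A : Ops K (Fin n)) (v : Fin (n + 1) → A.V) (k : Fin n) :
    brX A v k.succ = v k.castSucc := rfl
@[simp] theorem brY_zero (A : Ops K (Fin n)) (v : Fin (n + 1) → A.V) :
    brY A v 0 = v (Fin.last n) := rfl
@[simp] theorem brY_succ (A : Ops K (Fin n)) (v : Fin (n + 1) → A.V) (k : Fin n) :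
    brY A v k.succ = A.op k (v 0) := rfl

/-- the block object -/
def Br (A : Ops K (Fin n)) : Ops K (Fin 2) where
  V := Fin (n + 1) → A.V
  op := ![brX A, brY A]

/-- underlying map of `Br` on morphisms -/
def brLin {A B : Ops K (Fin n)} (f : A ⟶ B) : (Fin (n + 1) → A.V) →ₗ[K] (Fin (n + 1) → B.V) :=
  (Ops.lin f).compLeft (Fin (n + 1))

@[simp] theorem brLin_apply {A B : Ops K (Fin n)} (f : A ⟶ B) (v : Fin (n + 1) → A.V)
    (i : Fin (n + 1)) : brLin f v i = Ops.lin f (v i) := rfl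

theorem brLin_X {A B : Ops K (Fin n)} (f : A ⟶ B) (v : Fin (n + 1) → A.V) :
    brLin f (brX A v) = brX B (brLin f v) := by
  funext i
  refine Fin.cases ?_ (fun k => ?_) i <;> simp

theorem brLin_Y {A B : Ops K (Fin n)} (f : A ⟶ B) (v : Fin (n + 1) → A.V) :
    brLin f (brY A v) = brY B (brLin f v) := by
  funext i
  refine Fin.cases ?_ (fun k => ?_) i <;> simp [Ops.comm]

theorem brLin_comm {A B : Ops K (Fin n)} (f : A ⟶ B) (j : Fin 2) (v : (Br A).V) :
    brLin f ((Br A).op j v) = (Br B).op j (brLin f v) := by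
  match j with
  | 0 => exact brLin_X f v
  | 1 => exact brLin_Y f v

/-- `Br` on morphisms -/
def brMap {A B : Ops K (Fin n)} (f : A ⟶ B) : Br A ⟶ Br B := Ops.mkHom (brLin f) (brLin_comm f)

theorem brX_pow (A : Ops K (Fin n)) (k : ℕ) (v : Fin (n + 1) → A.V) (i : Fin (n + 1)) :
    ((brX A)^[k] v) i = if h : k ≤ i.1 then v ⟨i.1 - k, by omega⟩ else 0 := by
  induction k generalizing i with
  | zero => simp
  | succ k ih =>
    rw [Function.iterate_succ_apply']
    refine Fin.cases ?_ (fun m => ?_) i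
    · simp
    · rw [brX_succ, ih]
      by_cases h : k ≤ m.1
      · rw [dif_pos (by simpa using h), dif_pos (by simp; omega)]
        congr 1
        ext
        simp
      · rw [dif_neg (by simpa using h), dif_neg (by simp; omega)]

theorem br_unit (A : Ops K (Fin (n + 1))) (v : Fin (n + 2) → A.V) :
    brY A ((brX A)^[n + 1] v) = Pi.single 0 (v 0) := by
  funext i
  refine Fin.cases ?_ (fun k => ?_) i
  · rw [brY_zero, brX_pow, dif_pos (by simp), Pi.single_eq_same]
    congr 1
    ext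
    simp
  · rw [brY_succ, brX_pow, dif_neg (by simp), map_zero, Pi.single_eq_of_ne (Fin.succ_ne_zero k)]

theorem br_last (A : Ops K (Fin (n + 1))) (v : Fin (n + 2) → A.V) (i : Fin (n + 2)) :
    (brY A ((brX A)^[n + 1 - i.1] v)) 0 = v i := by
  rw [brY_zero, brX_pow, dif_pos (by simp)]
  congr 1
  ext
  simp
  omega

theorem iterate_comm {V W : Type*} (φ : V → W) (x : V → V) (y : W → W)
    (h : ∀ v, φ (x v) = y (φ v)) (k : ℕ) (v : V) : φ (x^[k] v) = y^[k] (φ v) := by
  induction k with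
  | zero => rfl
  | succ k ih => rw [Function.iterate_succ_apply', Function.iterate_succ_apply', h, ih]

theorem br_full_aux {A B : Ops K (Fin (n + 1))} (φ : (Fin (n + 2) → A.V) →ₗ[K] (Fin (n + 2) → B.V))
    (hx : ∀ v, φ (brX A v) = brX B (φ v)) (hy : ∀ v, φ (brY A v) = brY B (φ v)) :
    ∃ f : A ⟶ B, brLin f = φ := by
  have key : ∀ (v : Fin (n + 2) → A.V) (i : Fin (n + 2)),
      (φ v) i = (φ (Pi.single 0 (v i))) 0 := by
    intro v i
    have h1 := br_last A v i
    have h2 := br_last B (φ v) i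
    rw [← h2, ← iterate_comm φ _ _ hx, ← hy]
    have h3 := br_unit B (φ (brY A ((brX A)^[n + 1 - i.1] v)))
    have h4 := congrFun h3 0
    rw [Pi.single_eq_same] at h4
    rw [← h4, ← iterate_comm φ _ _ hx, ← hy, br_unit, h1]
  let ψ : A.V →ₗ[K] B.V := (LinearMap.proj 0).comp (φ.comp (LinearMap.single K _ 0))
  have hψ : ∀ (v : Fin (n + 2) → A.V) (i : Fin (n + 2)), (φ v) i = ψ (v i) := key
  refine ⟨Ops.mkHom ψ ?_, ?_⟩
  · intro k a
    have h1 := congrFun (hy (Pi.single 0 a)) k.succ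
    rw [hψ, brY_succ, brY_succ, hψ, Pi.single_eq_same] at h1
    exact h1
  · apply LinearMap.ext
    intro v
    funext i
    rw [brLin_apply, Ops.lin_mkHom, hψ]

theorem br_full {A B : Ops K (Fin (n + 1))} (φ : Br A ⟶ Br B) : ∃ f : A ⟶ B, brMap f = φ := by
  obtain ⟨f, hf⟩ := br_full_aux (A := A) (B := B) (Ops.lin φ) (fun v => Ops.comm φ 0 v)
    (fun v => Ops.comm φ 1 v)
  exact ⟨f, Ops.hom_ext fun x => congrArg (fun t => t x) hf⟩

theorem br_faithful {A B : Ops K (Fin n)} (f g : A ⟶ B) (h : brMap f = brMap g) : f = g := by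
  apply Ops.hom_ext
  intro v
  have h1 : brLin f (fun _ => v) = brLin g (fun _ => v) :=
    congrArg (fun t => Ops.lin t (fun _ => v : Fin (n + 1) → A.V)) h
  exact congrFun h1 0

theorem br_exact {A B C : Ops K (Fin n)} (f : A ⟶ B) (g : B ⟶ C)
    (h : Function.Exact (Ops.lin f) (Ops.lin g)) :
    Function.Exact (Ops.lin (brMap f)) (Ops.lin (brMap g)) := by
  intro y
  constructor
  · intro hy
    have hy' : ∀ i, Ops.lin g ((y : Fin (n + 1) → B.V) i) = 0 := fun i => congrFun hy i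
    choose x hx using fun i => (h _).1 (hy' i)
    exact ⟨(x : Fin (n + 1) → A.V), funext fun i => hx i⟩
  · rintro ⟨x, rfl⟩
    exact funext fun i => (h _).2 ⟨_, rfl⟩

theorem br_lin {A B : Ops K (Fin n)} (f g h : A ⟶ B) (a : K)
    (hh : ∀ v, Ops.lin h v = a • Ops.lin f v + Ops.lin g v) (x : (Br A).V) :
    Ops.lin (brMap h) x = a • Ops.lin (brMap f) x + Ops.lin (brMap g) x :=
  funext fun _ => hh _

theorem br_finite (A : Ops K (Fin n)) [Module.Finite K A.V] : Module.Finite K (Br A).V :=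
  inferInstanceAs (Module.Finite K (Fin (n + 1) → A.V))

end Q43.RE
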