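import Mathlib
import Pool.Agent.Q43.RE.Kron

/-!
# Extension of functors from finite-dimensional objects by direct limits

A full, faithful, exact, linear functor from finite-dimensional spaces with operators to modules
extends to all locally finite spaces with operators, by the direct limit over the
finite-dimensional invariant subspaces. The extension is again full, faithful, exact, linear.
-/

open CategoryTheory

set_option linter.unusedSectionVars false

namespace Q43.RE

universe u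

variable (K : Type u) [Field K] (J : Type) (R : Type u) [Ring R] [Algebra K R]

/-- finite-dimensional spaces with operators -/
abbrev FDO := {A : Ops K J // Module.Finite K A.V}

/-- A full, faithful, exact, linear functor from finite-dimensional spaces with operators to
modules, with finitely generated values. -/
structure HFun where
  /-- objects -/
  obj : FDO K J → ModuleCat.{u} R
  /-- morphisms -/
  map : ∀ {A B : FDO K J}, (A.1 ⟶ B.1) → (obj A →ₗ[R] obj B)
  map_id : ∀ (A : FDO K J) x, map (A := A) (B := A) (𝟙 A.1) x = x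
  map_comp : ∀ {A B C : FDO K J} (f : A.1 ⟶ B.1) (g : B.1 ⟶ C.1) x,
    map (A := A) (B := C) (f ≫ g) x = map g (map f x)
  full : ∀ {A B : FDO K J} (φ : obj A →ₗ[R] obj B), ∃ f : A.1 ⟶ B.1, map f = φ
  faithful : ∀ {A B : FDO K J} (f g : A.1 ⟶ B.1), map (A := A) (B := B) f = map g → f = g
  exact : ∀ {A B C : FDO K J} (f : A.1 ⟶ B.1) (g : B.1 ⟶ C.1),
    Function.Exact (Ops.lin f) (Ops.lin g) →
      Function.Exact (map (A := A) (B := B) f) (map (A := B) (B := C) g)
  lin : ∀ {A B : FDO K J} (f g h : A.1 ⟶ B.1) (a : K),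
    (∀ v, Ops.lin h v = a • Ops.lin f v + Ops.lin g v) → ∀ x,
      map (A := A) (B := B) h x = algebraMap K R a • map f x + map g x
  fg : ∀ A : FDO K J, Module.Finite R (obj A)

variable {K J R}

/-- invariant finite-dimensional subspaces -/
def Idx (A : Ops K J) : Type u :=
  {S : Submodule K A.V // Module.Finite K S ∧ ∀ j, ∀ x ∈ S, A.op j x ∈ S}

instance (A : Ops K J) : PartialOrder (Idx A) :=
  inferInstanceAs (PartialOrder {S : Submodule K A.V //
    Module.Finite K S ∧ ∀ j, ∀ x ∈ S, A.op j x ∈ S})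

instance (A : Ops K J) : Nonempty (Idx A) :=
  ⟨⟨⊥, inferInstance, fun j x hx => by
    rw [Submodule.mem_bot] at hx ⊢
    rw [hx, map_zero]⟩⟩

/-- sum of two invariant finite-dimensional subspaces -/
def Idx.sup {A : Ops K J} (S T : Idx A) : Idx A :=
  ⟨S.1 ⊔ T.1, by
    have := S.2.1
    have := T.2.1
    infer_instance, fun j x hx => by
    obtain ⟨y, hy, z, hz, rfl⟩ := Submodule.mem_sup.1 hx
    rw [map_add]
    exact Submodule.add_mem_sup (S.2.2 j y hy) (T.2.2 j z hz)⟩

theorem Idx.le_sup_left {A : Ops K J} (S T : Idx A) : S ≤ S.sup T :=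
  (_root_.le_sup_left : S.1 ≤ S.1 ⊔ T.1)

theorem Idx.le_sup_right {A : Ops K J} (S T : Idx A) : T ≤ S.sup T :=
  (_root_.le_sup_right : T.1 ≤ S.1 ⊔ T.1)

instance (A : Ops K J) : IsDirectedOrder (Idx A) :=
  ⟨fun S T => ⟨S.sup T, S.le_sup_left T, S.le_sup_right T⟩⟩

/-- the invariant subspace as an object -/
def subObj {A : Ops K J} (S : Idx A) : Ops K J where
  V := S.1
  op j := (A.op j).restrict (S.2.2 j)

/-- the same, as a finite-dimensional object -/
abbrev sFD {A : Ops K J} (S : Idx A) : FDO K J := ⟨subObj S, S.2.1⟩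

/-- restriction of a morphism -/
def res {A B : Ops K J} (f : A ⟶ B) (S : Idx A) (T : Idx B)
    (h : ∀ x ∈ S.1, Ops.lin f x ∈ T.1) : subObj S ⟶ subObj T :=
  Ops.mkHom ((Ops.lin f).restrict h) (fun j v => Subtype.ext (Ops.comm f j v.1))

theorem res_coe {A B : Ops K J} (f : A ⟶ B) (S : Idx A) (T : Idx B)
    (h : ∀ x ∈ S.1, Ops.lin f x ∈ T.1) (x : S.1) :
    (Subtype.val (Ops.lin (res f S T h) x : T.1) : B.V) = Ops.lin f x.1 := rfl

theorem res_comp {A B C : Ops K J} (f : A ⟶ B) (g : B ⟶ C) (S : Idx A) (T : Idx B) (U : Idx C)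
    (h : ∀ x ∈ S.1, Ops.lin f x ∈ T.1) (h' : ∀ x ∈ T.1, Ops.lin g x ∈ U.1) :
    res f S T h ≫ res g T U h' = res (f ≫ g) S U (fun x hx => h' _ (h x hx)) := rfl

theorem res_id {A : Ops K J} (S : Idx A) (h : ∀ x ∈ S.1, Ops.lin (𝟙 A) x ∈ S.1) :
    res (𝟙 A) S S h = 𝟙 (subObj S) := rfl

/-- inclusion -/
def inc {A : Ops K J} {S T : Idx A} (h : S ≤ T) : subObj S ⟶ subObj T :=
  res (𝟙 A) S T (fun x hx => h hx)

theorem inc_comp_res {A B : Ops K J} (f : A ⟶ B) {S S' : Idx A} (T : Idx B) (hS : S ≤ S')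
    (h : ∀ x ∈ S'.1, Ops.lin f x ∈ T.1) :
    inc hS ≫ res f S' T h = res f S T (fun x hx => h x (hS hx)) := rfl

theorem res_comp_inc {A B : Ops K J} (f : A ⟶ B) (S : Idx A) {T T' : Idx B} (hT : T ≤ T')
    (h : ∀ x ∈ S.1, Ops.lin f x ∈ T.1) :
    res f S T h ≫ inc hT = res f S T' (fun x hx => hT (h x hx)) := rfl

/-- image of an invariant subspace -/
def imIdx {A B : Ops K J} (f : A ⟶ B) (S : Idx A) : Idx B :=
  ⟨S.1.map (Ops.lin f), by
    have := S.2.1
    infer_instance, fun j x hx => by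
    obtain ⟨y, hy, rfl⟩ := hx
    exact ⟨A.op j y, S.2.2 j y hy, Ops.comm f j y⟩⟩

theorem mem_imIdx {A B : Ops K J} (f : A ⟶ B) (S : Idx A) (x : A.V) (hx : x ∈ S.1) :
    Ops.lin f x ∈ (imIdx f S).1 := ⟨x, hx, rfl⟩

theorem imIdx_le {A B : Ops K J} (f : A ⟶ B) (S : Idx A) (T : Idx B)
    (h : ∀ x ∈ S.1, Ops.lin f x ∈ T.1) : imIdx f S ≤ T := by
  rintro _ ⟨x, hx, rfl⟩
  exact h x hx

namespace HFun

variable (H : HFun K J R)

theorem map_zero_of {A B : FDO K J} (f : A.1 ⟶ B.1) (hf : ∀ v, Ops.lin f v = 0) (x : H.obj A) :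
    H.map (A := A) (B := B) f x = 0 := by
  have h := H.lin (A := A) (B := B) f f f (-1) (fun v => by simp [hf]) x
  rw [h, map_neg, map_one, neg_smul, one_smul, neg_add_cancel]

/-- the zero object -/
def zeroObj : FDO K J := ⟨{ V := PUnit, op := fun _ => 0 }, inferInstance⟩

theorem map_injective {A B : FDO K J} (f : A.1 ⟶ B.1) (hf : Function.Injective (Ops.lin f)) :
    Function.Injective (H.map (A := A) (B := B) f) := by
  let z : (zeroObj (K := K) (J := J)).1 ⟶ A.1 := Ops.mkHom 0 (fun j v => by simp)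
  have hex : Function.Exact (Ops.lin z) (Ops.lin f) := by
    intro y
    constructor
    · intro hy
      have : y = 0 := hf (by rw [hy, map_zero])
      exact ⟨0, by rw [this, map_zero]⟩
    · rintro ⟨x, rfl⟩
      show Ops.lin f 0 = 0
      rw [map_zero]
  have h := H.exact (A := zeroObj) (B := A) (C := B) z f hex
  rw [injective_iff_map_eq_zero]
  intro a ha
  obtain ⟨x, hx⟩ := (h a).1 ha
  rw [← hx]
  exact H.map_zero_of _ (fun _ => rfl) x

theorem map_surjective {A B : FDO K J} (f : A.1 ⟶ B.1) (hf : Function.Surjective (Ops.lin f)) :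
    Function.Surjective (H.map (A := A) (B := B) f) := by
  let z : B.1 ⟶ (zeroObj (K := K) (J := J)).1 := Ops.mkHom 0 (fun j v => rfl)
  have hex : Function.Exact (Ops.lin f) (Ops.lin z) := by
    intro y
    constructor
    · intro _
      exact hf y
    · intro _
      rfl
  have h := H.exact (A := A) (B := B) (C := zeroObj) f z hex
  intro y
  exact (h y).1 (H.map_zero_of _ (fun _ => rfl) y)

open Classical in
/-- The extension of the functor, on objects. -/
abbrev Lim (A : Ops K J) : Type u :=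
  Module.DirectLimit (fun S : Idx A => H.obj (sFD S))
    (fun S T h => H.map (A := sFD S) (B := sFD T) (inc h))

open Classical in
/-- the canonical maps -/
noncomputable def of {A : Ops K J} (S : Idx A) : H.obj (sFD S) →ₗ[R] H.Lim A :=
  Module.DirectLimit.of R (Idx A) (fun S : Idx A => H.obj (sFD S))
    (fun S T h => H.map (A := sFD S) (B := sFD T) (inc h)) S

theorem of_inc {A : Ops K J} {S T : Idx A} (h : S ≤ T) (x : H.obj (sFD S)) :
    H.of T (H.map (A := sFD S) (B := sFD T) (inc h) x) = H.of S x := by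
  classical
  exact Module.DirectLimit.of_f

instance directed (A : Ops K J) : DirectedSystem (fun S : Idx A => H.obj (sFD S))
    (fun S T h => H.map (A := sFD S) (B := sFD T) (inc h)) where
  map_self S x := H.map_id (sFD S) x
  map_map S T U h h' x := (H.map_comp (A := sFD _) (B := sFD _) (C := sFD _) (inc h) (inc h') x).symm

theorem exists_of {A : Ops K J} (z : H.Lim A) : ∃ S x, H.of (A := A) S x = z := by
  classical
  exact Module.DirectLimit.exists_of z

theorem inc_injective {A : Ops K J} {S T : Idx A} (h : S ≤ T) :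
    Function.Injective (Ops.lin (inc h)) := by
  intro x y hxy
  have : (Subtype.val (Ops.lin (inc h) x : T.1) : A.V) = Subtype.val (Ops.lin (inc h) y : T.1) := by
    rw [hxy]
  exact Subtype.ext this

theorem of_injective {A : Ops K J} (S : Idx A) : Function.Injective (H.of S) := by
  classical
  rw [injective_iff_map_eq_zero]
  intro x hx
  obtain ⟨T, hT, h⟩ := Module.DirectLimit.of.zero_exact hx
  exact H.map_injective (A := sFD S) (B := sFD T) (inc hT) (inc_injective hT)
    (by rw [map_zero]; exact h)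

/-- The extension of the functor, on morphisms. -/
noncomputable def limMap {A B : Ops K J} (f : A ⟶ B) : H.Lim A →ₗ[R] H.Lim B := by
  classical
  exact Module.DirectLimit.lift R (Idx A) _ _
    (fun S => (H.of (imIdx f S)).comp
      (H.map (A := sFD S) (B := sFD (imIdx f S)) (res f S (imIdx f S) (mem_imIdx f S))))
    (by
      intro S T hST x
      rw [LinearMap.comp_apply, LinearMap.comp_apply, ← H.map_comp, inc_comp_res]
      have hle : imIdx f S ≤ imIdx f T := imIdx_le f S _ (fun x hx => mem_imIdx f T x (hST hx))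
      rw [← H.of_inc hle, ← H.map_comp, res_comp_inc])

theorem limMap_of {A B : Ops K J} (f : A ⟶ B) (S : Idx A) (T : Idx B)
    (h : ∀ x ∈ S.1, Ops.lin f x ∈ T.1) (x : H.obj (sFD S)) :
    H.limMap f (H.of S x) = H.of T (H.map (A := sFD S) (B := sFD T) (res f S T h) x) := by
  classical
  have h1 : H.limMap f (H.of S x) = H.of (imIdx f S)
      (H.map (A := sFD S) (B := sFD (imIdx f S)) (res f S (imIdx f S) (mem_imIdx f S)) x) :=
    Module.DirectLimit.lift_of _ _ _
  rw [h1, ← H.of_inc (imIdx_le f S T h), ← H.map_comp, res_comp_inc]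

theorem limMap_id (A : Ops K J) (z : H.Lim A) : H.limMap (𝟙 A) z = z := by
  obtain ⟨S, x, rfl⟩ := H.exists_of z
  rw [H.limMap_of (𝟙 A) S S (fun x hx => hx), res_id, H.map_id (sFD S)]

theorem limMap_comp {A B C : Ops K J} (f : A ⟶ B) (g : B ⟶ C) (z : H.Lim A) :
    H.limMap (f ≫ g) z = H.limMap g (H.limMap f z) := by
  obtain ⟨S, x, rfl⟩ := H.exists_of z
  rw [H.limMap_of f S (imIdx f S) (mem_imIdx f S),
    H.limMap_of g (imIdx f S) (imIdx g (imIdx f S)) (mem_imIdx g _), ← H.map_comp, res_comp,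
    H.limMap_of (f ≫ g) S (imIdx g (imIdx f S))]

theorem limMap_lin {A B : Ops K J} (f g h : A ⟶ B) (a : K)
    (hh : ∀ v, Ops.lin h v = a • Ops.lin f v + Ops.lin g v) (z : H.Lim A) :
    H.limMap h z = algebraMap K R a • H.limMap f z + H.limMap g z := by
  obtain ⟨S, x, rfl⟩ := H.exists_of z
  let T : Idx B := (imIdx f S).sup (imIdx g S)
  have hf : ∀ x ∈ S.1, Ops.lin f x ∈ T.1 := fun x hx =>
    Idx.le_sup_left (imIdx f S) (imIdx g S) (mem_imIdx f S x hx)
  have hg : ∀ x ∈ S.1, Ops.lin g x ∈ T.1 := fun x hx =>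
    Idx.le_sup_right (imIdx f S) (imIdx g S) (mem_imIdx g S x hx)
  have hh' : ∀ x ∈ S.1, Ops.lin h x ∈ T.1 := fun x hx => by
    rw [hh]
    exact T.1.add_mem (T.1.smul_mem _ (hf x hx)) (hg x hx)
  rw [H.limMap_of h S T hh', H.limMap_of f S T hf, H.limMap_of g S T hg,
    H.lin (A := sFD S) (B := sFD T) (res f S T hf) (res g S T hg) (res h S T hh') a
      (fun v => Subtype.ext (hh v.1)), map_add, map_smul]

/-- local finiteness in terms of indices -/
theorem exists_mem {A : Ops K J} (hA : LocFin A) (v : A.V) : ∃ S : Idx A, v ∈ S.1 := by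
  obtain ⟨S, h1, h2, h3⟩ := hA v
  exact ⟨⟨S, h1, h2⟩, h3⟩

theorem lim_faithful {A B : Ops K J} (hA : LocFin A) (f g : A ⟶ B)
    (h : ∀ z, H.limMap f z = H.limMap g z) : f = g := by
  apply Ops.hom_ext
  intro v
  obtain ⟨S, hv⟩ := exists_mem hA v
  let T : Idx B := (imIdx f S).sup (imIdx g S)
  have hf : ∀ x ∈ S.1, Ops.lin f x ∈ T.1 := fun x hx =>
    Idx.le_sup_left (imIdx f S) (imIdx g S) (mem_imIdx f S x hx)
  have hg : ∀ x ∈ S.1, Ops.lin g x ∈ T.1 := fun x hx =>
    Idx.le_sup_right (imIdx f S) (imIdx g S) (mem_imIdx g S x hx)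
  have h1 : H.map (A := sFD S) (B := sFD T) (res f S T hf) = H.map (res g S T hg) := by
    apply LinearMap.ext
    intro x
    apply H.of_injective T
    rw [← H.limMap_of, ← H.limMap_of, h]
  have h2 := H.faithful (A := sFD S) (B := sFD T) _ _ h1
  have h3 : (Subtype.val (Ops.lin (res f S T hf) (⟨v, hv⟩ : S.1) : T.1) : B.V) =
      Subtype.val (Ops.lin (res g S T hg) (⟨v, hv⟩ : S.1) : T.1) := by rw [h2]
  exact h3

theorem exists_range {A : Ops K J} (F : Finset (H.Lim A)) :
    ∃ T : Idx A, ∀ z ∈ F, z ∈ LinearMap.range (H.of T) := by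
  classical
  induction F using Finset.induction_on with
  | empty => exact ⟨Classical.arbitrary _, by simp⟩
  | insert a F ha ih =>
    obtain ⟨T, hT⟩ := ih
    obtain ⟨S, x, hx⟩ := H.exists_of a
    refine ⟨S.sup T, ?_⟩
    intro z hz
    rcases Finset.mem_insert.1 hz with rfl | hz
    · exact ⟨H.map (A := sFD S) (B := sFD (S.sup T)) (inc (S.le_sup_left T)) x, by
        rw [H.of_inc, hx]⟩
    · obtain ⟨y, hy⟩ := hT z hz
      exact ⟨H.map (A := sFD T) (B := sFD (S.sup T)) (inc (S.le_sup_right T)) y, by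
        rw [H.of_inc, hy]⟩

theorem exists_lift {A B : Ops K J} (ψ : H.Lim A →ₗ[R] H.Lim B) (S : Idx A) :
    ∃ (T : Idx B) (f : subObj S ⟶ subObj T), ∀ x,
      ψ (H.of S x) = H.of T (H.map (A := sFD S) (B := sFD T) f x) := by
  classical
  have := H.fg (sFD S)
  obtain ⟨F, hF⟩ : (LinearMap.range (ψ.comp (H.of S))).FG :=
    Module.Finite.iff_fg.1 inferInstance
  obtain ⟨T, hT⟩ := H.exists_range F
  have hle : LinearMap.range (ψ.comp (H.of S)) ≤ LinearMap.range (H.of T) := by
    rw [← hF, Submodule.span_le]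
    exact hT
  let g' : H.obj (sFD S) →ₗ[R] H.obj (sFD T) :=
    (LinearEquiv.ofInjective (H.of T) (H.of_injective T)).symm.toLinearMap.comp
      ((ψ.comp (H.of S)).codRestrict _ (fun x => hle ⟨x, rfl⟩))
  obtain ⟨f, hf⟩ := H.full g'
  refine ⟨T, f, fun x => ?_⟩
  rw [hf]
  have h1 := LinearEquiv.apply_symm_apply (LinearEquiv.ofInjective (H.of T) (H.of_injective T))
    ((ψ.comp (H.of S)).codRestrict _ (fun x => hle ⟨x, rfl⟩) x)
  have h2 := congrArg Subtype.val h1
  rw [LinearEquiv.ofInjective_apply] at h2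
  exact h2.symm

theorem lim_full {A B : Ops K J} (hA : LocFin A) (ψ : H.Lim A →ₗ[R] H.Lim B) :
    ∃ f : A ⟶ B, ∀ z, H.limMap f z = ψ z := by
  classical
  choose T f hf using H.exists_lift ψ
  -- compatibility
  have hcomp : ∀ (S S' : Idx A) (_ : S ≤ S') (v : A.V) (hv : v ∈ S.1) (hv' : v ∈ S'.1),
      (Subtype.val (Ops.lin (f S) (⟨v, hv⟩ : S.1) : (T S).1) : B.V) =
        Subtype.val (Ops.lin (f S') (⟨v, hv'⟩ : S'.1) : (T S').1) := by
    intro S S' hSS v hv hv'
    let U : Idx B := (T S).sup (T S')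
    have h1 : H.map (A := sFD S) (B := sFD U) (f S ≫ inc (Idx.le_sup_left (T S) (T S'))) =
        H.map (A := sFD S) (B := sFD U)
          (inc hSS ≫ f S' ≫ inc (Idx.le_sup_right (T S) (T S'))) := by
      apply LinearMap.ext
      intro x
      apply H.of_injective U
      rw [H.map_comp (A := sFD S) (B := sFD (T S)) (C := sFD U),
        H.map_comp (A := sFD S) (B := sFD S') (C := sFD U),
        H.map_comp (A := sFD S') (B := sFD (T S')) (C := sFD U), H.of_inc, H.of_inc,
        ← hf S, ← hf S', H.of_inc]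
    have h2 := H.faithful (A := sFD S) (B := sFD U) _ _ h1
    have h3 : (Subtype.val (Ops.lin (f S ≫ inc (Idx.le_sup_left (T S) (T S')))
        (⟨v, hv⟩ : S.1) : U.1) : B.V) =
        Subtype.val (Ops.lin (inc hSS ≫ f S' ≫ inc (Idx.le_sup_right (T S) (T S')))
        (⟨v, hv⟩ : S.1) : U.1) := by rw [h2]
    exact h3
  choose P hP using fun v => exists_mem hA v
  let F0 : A.V → B.V := fun v => Subtype.val (Ops.lin (f (P v)) (⟨v, hP v⟩ : (P v).1) : (T (P v)).1)
  have hF0 : ∀ (S : Idx A) (v : A.V) (hv : v ∈ S.1),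
      F0 v = Subtype.val (Ops.lin (f S) (⟨v, hv⟩ : S.1) : (T S).1) := by
    intro S v hv
    have h1 := hcomp (P v) ((P v).sup S) (Idx.le_sup_left _ _) v (hP v)
      (Idx.le_sup_left (P v) S (hP v))
    have h2 := hcomp S ((P v).sup S) (Idx.le_sup_right _ _) v hv (Idx.le_sup_left (P v) S (hP v))
    exact h1.trans h2.symm
  let F1 : A.V →ₗ[K] B.V :=
    { toFun := F0
      map_add' := by
        intro v w
        let S := (P v).sup (P w)
        have hv : v ∈ S.1 := Idx.le_sup_left (P v) (P w) (hP v)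
        have hw : w ∈ S.1 := Idx.le_sup_right (P v) (P w) (hP w)
        rw [hF0 S v hv, hF0 S w hw, hF0 S (v + w) (S.1.add_mem hv hw)]
        have h1 : (⟨v + w, S.1.add_mem hv hw⟩ : S.1) = ⟨v, hv⟩ + ⟨w, hw⟩ := rfl
        rw [h1]
        exact congrArg Subtype.val
          (map_add (Ops.lin (f S)) (⟨v, hv⟩ : S.1) (⟨w, hw⟩ : S.1))
      map_smul' := by
        intro a v
        have hv := hP v
        rw [hF0 (P v) v hv, hF0 (P v) (a • v) ((P v).1.smul_mem a hv)]
        exact congrArg Subtype.val (map_smul (Ops.lin (f (P v))) a (⟨v, hv⟩ : (P v).1)) }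
  have hF1 : ∀ (S : Idx A) (v : A.V) (hv : v ∈ S.1),
      F1 v = Subtype.val (Ops.lin (f S) (⟨v, hv⟩ : S.1) : (T S).1) := hF0
  have hFc : ∀ j v, F1 (A.op j v) = B.op j (F1 v) := by
    intro j v
    rw [hF1 (P v) (A.op j v) ((P v).2.2 j v (hP v)), hF1 (P v) v (hP v)]
    exact congrArg Subtype.val (Ops.comm (f (P v)) j (⟨v, hP v⟩ : (P v).1))
  refine ⟨Ops.mkHom F1 hFc, fun z => ?_⟩
  obtain ⟨S, x, rfl⟩ := H.exists_of z
  have hmem : ∀ x ∈ S.1, Ops.lin (Ops.mkHom F1 hFc : A ⟶ B) x ∈ (T S).1 := by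
    intro x hx
    rw [Ops.lin_mkHom, hF1 S x hx]
    exact Subtype.property _
  rw [H.limMap_of _ S (T S) hmem, hf S]
  have : res (Ops.mkHom F1 hFc) S (T S) hmem = f S := by
    apply Ops.hom_ext
    rintro ⟨v, hv⟩
    exact Subtype.ext (hF1 S v hv)
  rw [this]

theorem exists_cover {A B : Ops K J} (hA : LocFin A) (f : A ⟶ B) (F : Finset B.V)
    (hF : ∀ b ∈ F, ∃ a, Ops.lin f a = b) :
    ∃ S : Idx A, ∀ b ∈ F, b ∈ (imIdx f S).1 := by
  classical
  induction F using Finset.induction_on with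
  | empty => exact ⟨Classical.arbitrary _, by simp⟩
  | insert b F hb ih =>
    obtain ⟨S, hS⟩ := ih (fun c hc => hF c (Finset.mem_insert_of_mem hc))
    obtain ⟨a, ha⟩ := hF b (Finset.mem_insert_self b F)
    obtain ⟨S', hS'⟩ := exists_mem hA a
    refine ⟨S.sup S', ?_⟩
    intro c hc
    rcases Finset.mem_insert.1 hc with rfl | hc
    · exact ⟨a, Idx.le_sup_right S S' hS', ha⟩
    · obtain ⟨x, hx, rfl⟩ := hS c hc
      exact ⟨x, Idx.le_sup_left S S' hx, rfl⟩

theorem exists_cover_submodule {A B : Ops K J} (hA : LocFin A) (f : A ⟶ B)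
    (N : Submodule K B.V) (hN : Module.Finite K N) (hNf : ∀ b ∈ N, ∃ a, Ops.lin f a = b) :
    ∃ S : Idx A, N ≤ (imIdx f S).1 := by
  obtain ⟨F, hF⟩ := Module.Finite.iff_fg.1 hN
  obtain ⟨S, hS⟩ := exists_cover hA f F (fun b hb => hNf b (by
    rw [← hF]
    exact Submodule.subset_span hb))
  refine ⟨S, ?_⟩
  rw [← hF, Submodule.span_le]
  exact hS

theorem lim_exact {A B C : Ops K J} (hA : LocFin A) (f : A ⟶ B) (g : B ⟶ C)
    (h : Function.Exact (Ops.lin f) (Ops.lin g)) :
    Function.Exact (H.limMap f) (H.limMap g) := by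
  intro y
  constructor
  · intro hy
    obtain ⟨S, x, rfl⟩ := H.exists_of y
    -- the kernel on `S`
    let N : Submodule K B.V := S.1 ⊓ LinearMap.ker (Ops.lin g)
    have hN : Module.Finite K N := by
      have := S.2.1
      exact Submodule.finiteDimensional_of_le (inf_le_left : N ≤ S.1)
    obtain ⟨S1, hS1⟩ := exists_cover_submodule hA f N hN (fun b hb => (h b).1 hb.2)
    let S' : Idx B := S.sup (imIdx f S1)
    have hS' : S ≤ S' := Idx.le_sup_left _ _
    have hf' : ∀ a ∈ S1.1, Ops.lin f a ∈ S'.1 := fun a ha =>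
      Idx.le_sup_right S (imIdx f S1) (mem_imIdx f S1 a ha)
    have hex : Function.Exact (Ops.lin (res f S1 S' hf'))
        (Ops.lin (res g S' (imIdx g S') (mem_imIdx g S'))) := by
      rintro ⟨b, hb⟩
      constructor
      · intro hgb
        have hgb' : Ops.lin g b = 0 := congrArg Subtype.val hgb
        obtain ⟨s, hs, t, ht, hst⟩ := Submodule.mem_sup.1 hb
        obtain ⟨a, ha, hat⟩ := ht
        have hgt : Ops.lin g t = 0 := (h t).2 ⟨a, hat⟩
        have hgs : Ops.lin g s = 0 := by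
          rw [← hst, map_add, hgt, add_zero] at hgb'
          exact hgb'
        obtain ⟨a', ha', has⟩ := hS1 (show s ∈ N from ⟨hs, hgs⟩)
        refine ⟨(⟨a' + a, S1.1.add_mem ha' ha⟩ : S1.1), Subtype.ext ?_⟩
        show Ops.lin f (a' + a) = b
        rw [map_add, hat, has, hst]
      · rintro ⟨⟨a, ha⟩, hab⟩
        have hab' : Ops.lin f a = b := congrArg Subtype.val hab
        exact Subtype.ext ((h b).2 ⟨a, hab'⟩)
    have hH := H.exact (A := sFD S1) (B := sFD S') (C := sFD (imIdx g S')) _ _ hex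
    have hy' : H.map (A := sFD S') (B := sFD (imIdx g S'))
        (res g S' (imIdx g S') (mem_imIdx g S'))
        (H.map (A := sFD S) (B := sFD S') (inc hS') x) = 0 := by
      apply H.of_injective (imIdx g S')
      rw [← H.limMap_of g S' (imIdx g S') (mem_imIdx g S'), H.of_inc, hy, map_zero]
    obtain ⟨w, hw⟩ := (hH _).1 hy'
    refine ⟨H.of S1 w, ?_⟩
    rw [H.limMap_of f S1 S' hf', hw, H.of_inc]
  · rintro ⟨x, rfl⟩
    rw [← H.limMap_comp]
    obtain ⟨S, w, rfl⟩ := H.exists_of x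
    rw [H.limMap_of (f ≫ g) S (imIdx (f ≫ g) S) (mem_imIdx _ S),
      H.map_zero_of (A := sFD S) (B := sFD (imIdx (f ≫ g) S)), map_zero]
    rintro ⟨v, hv⟩
    apply Subtype.ext
    show Ops.lin g (Ops.lin f v) = 0
    exact (h _).2 ⟨v, rfl⟩

end HFun

end Q43.RE
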