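import Mathlib
import Pool.Agent.Q43.RE.Defs
import Pool.Agent.Q43.RE.Lim

/-!
# From a fully wild algebra to a functor on spaces with operators
-/

open CategoryTheory
open scoped ModuleCat

set_option linter.unusedSectionVars false

namespace Q43.RE

universe u

variable {K : Type u} [Field K]

/-- the free algebra in two variables -/
abbrev Fr (K : Type u) [Field K] := FreeAlgebra K (Fin 2)

/-- the algebra homomorphism given by two operators -/
noncomputable def rmAlg (A : Ops K (Fin 2)) : Fr K →ₐ[K] (Module.End K A.V)ᵐᵒᵖ :=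
  FreeAlgebra.lift K (fun i => MulOpposite.op (A.op i))

/-- the action of the opposite of the free algebra -/
noncomputable def rmHom (A : Ops K (Fin 2)) : (Fr K)ᵐᵒᵖ →+* Module.End K A.V where
  toFun r := (rmAlg A r.unop).unop
  map_one' := by simp
  map_mul' r s := by simp
  map_zero' := by simp
  map_add' r s := by simp

/-- The underlying space as a right module over the free algebra. -/
def RMV (A : Ops K (Fin 2)) : Type u := A.V

instance (A : Ops K (Fin 2)) : AddCommGroup (RMV A) := A.acg

noncomputable instance (A : Ops K (Fin 2)) : Module (Fr K)ᵐᵒᵖ (RMV A) :=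
  Module.compHom A.V (rmHom A)

theorem rm_smul (A : Ops K (Fin 2)) (r : (Fr K)ᵐᵒᵖ) (v : RMV A) :
    r • v = (show RMV A from rmHom A r (show A.V from v)) := rfl

theorem rm_ι (A : Ops K (Fin 2)) (i : Fin 2) (v : A.V) :
    rmHom A (MulOpposite.op (FreeAlgebra.ι K i)) v = A.op i v := by
  show ((rmAlg A (FreeAlgebra.ι K i)).unop) v = A.op i v
  simp [rmAlg]

theorem rm_algebraMap (A : Ops K (Fin 2)) (a : K) (v : A.V) :
    rmHom A (algebraMap K (Fr K)ᵐᵒᵖ a) v = a • v := by
  show ((rmAlg A (algebraMap K (Fr K) a)).unop) v = a • v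
  rw [AlgHom.commutes]
  rfl

theorem rm_comm {A B : Ops K (Fin 2)} (f : A ⟶ B) (r : Fr K) (v : A.V) :
    Ops.lin f ((rmAlg A r).unop v) = (rmAlg B r).unop (Ops.lin f v) := by
  induction r using FreeAlgebra.induction generalizing v with
  | grade0 a =>
    rw [AlgHom.commutes, AlgHom.commutes]
    exact map_smul (Ops.lin f) a v
  | grade1 i =>
    simp only [rmAlg, FreeAlgebra.lift_ι_apply, MulOpposite.unop_op]
    exact Ops.comm f i v
  | mul r s hr hs =>
    rw [map_mul, map_mul, MulOpposite.unop_mul, MulOpposite.unop_mul, Module.End.mul_apply,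
      Module.End.mul_apply, hs, hr]
  | add r s hr hs =>
    rw [map_add, map_add, MulOpposite.unop_add, MulOpposite.unop_add, LinearMap.add_apply,
      LinearMap.add_apply, map_add, hr, hs]

/-- a morphism as a linear map over the opposite free algebra -/
noncomputable def rmLin {A B : Ops K (Fin 2)} (f : A ⟶ B) : RMV A →ₗ[(Fr K)ᵐᵒᵖ] RMV B where
  toFun v := Ops.lin f v
  map_add' v w := map_add (Ops.lin f) v w
  map_smul' r v := rm_comm f r.unop v

/-- a linear map over the opposite free algebra as a morphism -/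
noncomputable def ofRmLin {A B : Ops K (Fin 2)} (g : RMV A →ₗ[(Fr K)ᵐᵒᵖ] RMV B) : A ⟶ B :=
  Ops.mkHom
    { toFun := fun v => g v
      map_add' := fun v w => map_add g v w
      map_smul' := fun a v => by
        have h : g (show RMV A from rmHom A (algebraMap K (Fr K)ᵐᵒᵖ a) v) =
          (show RMV B from rmHom B (algebraMap K (Fr K)ᵐᵒᵖ a) (show B.V from g v)) :=
          map_smul g (algebraMap K (Fr K)ᵐᵒᵖ a) (show RMV A from v)
        rw [rm_algebraMap, rm_algebraMap] at h
        exact h }
    (fun j v => by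
      have h : g (show RMV A from rmHom A (MulOpposite.op (FreeAlgebra.ι K j)) v) =
          (show RMV B from rmHom B (MulOpposite.op (FreeAlgebra.ι K j)) (show B.V from g v)) :=
        map_smul g (MulOpposite.op (FreeAlgebra.ι K j)) (show RMV A from v)
      rw [rm_ι, rm_ι] at h
      exact h)

theorem rmLin_ofRmLin {A B : Ops K (Fin 2)} (g : RMV A →ₗ[(Fr K)ᵐᵒᵖ] RMV B) :
    rmLin (ofRmLin g) = g := rfl

/-- the module as an object -/
noncomputable def RM (A : Ops K (Fin 2)) : RMod (Fr K) := ModuleCat.of (Fr K)ᵐᵒᵖ (RMV A)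

theorem rm_finite (A : Ops K (Fin 2)) (hA : Module.Finite K A.V) : IsFD K (Fr K) (RM A) := by
  let e : A.V →ₗ[K] (RM A) :=
    { toFun := fun v => v
      map_add' := fun _ _ => rfl
      map_smul' := fun a v => (rm_algebraMap A a v).symm }
  exact Module.Finite.of_surjective e (fun v => ⟨v, rfl⟩)

variable {n : ℕ}

/-- from finite-dimensional spaces with operators to modules over the free algebra -/
noncomputable def toFD (A : FDO K (Fin (n + 1))) : FDMod K (Fr K) :=
  ⟨RM (Br A.1), rm_finite _ (by
    have := A.2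
    exact br_finite A.1)⟩

/-- the same on morphisms -/
noncomputable def toFDmap {A B : FDO K (Fin (n + 1))} (f : A.1 ⟶ B.1) : toFD A ⟶ toFD B :=
  ObjectProperty.homMk (ModuleCat.ofHom (rmLin (brMap f)))

theorem toFDmap_id (A : FDO K (Fin (n + 1))) : toFDmap (A := A) (B := A) (𝟙 A.1) = 𝟙 (toFD A) :=
  rfl

theorem toFDmap_comp {A B C : FDO K (Fin (n + 1))} (f : A.1 ⟶ B.1) (g : B.1 ⟶ C.1) :
    toFDmap (A := A) (B := C) (f ≫ g) = toFDmap f ≫ toFDmap g :=
  rfl

theorem toFDmap_full {A B : FDO K (Fin (n + 1))} (g : toFD A ⟶ toFD B) :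
    ∃ f : A.1 ⟶ B.1, toFDmap f = g := by
  obtain ⟨f, hf⟩ := br_full (A := A.1) (B := B.1) (ofRmLin g.hom.hom)
  refine ⟨f, ?_⟩
  apply ObjectProperty.hom_ext
  apply ModuleCat.hom_ext
  show rmLin (brMap f) = g.hom.hom
  rw [hf]
  rfl

theorem toFDmap_faithful {A B : FDO K (Fin (n + 1))} (f g : A.1 ⟶ B.1)
    (h : toFDmap (A := A) (B := B) f = toFDmap g) : f = g := by
  apply br_faithful
  apply Ops.hom_ext
  intro v
  exact congrArg (fun t : toFD A ⟶ toFD B => t.hom.hom v) h

theorem toFDmap_exact {A B C : FDO K (Fin (n + 1))} (f : A.1 ⟶ B.1) (g : B.1 ⟶ C.1)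
    (h : Function.Exact (Ops.lin f) (Ops.lin g)) :
    Function.Exact (toFDmap (A := A) (B := B) f).hom.hom (toFDmap (A := B) (B := C) g).hom.hom :=
  br_exact f g h

theorem toFDmap_lin {A B : FDO K (Fin (n + 1))} (f g h : A.1 ⟶ B.1) (a : K)
    (hh : ∀ v, Ops.lin h v = a • Ops.lin f v + Ops.lin g v) :
    toFDmap (A := A) (B := B) h = a • toFDmap f + toFDmap g := by
  apply ObjectProperty.hom_ext
  apply ModuleCat.hom_ext
  apply LinearMap.ext
  intro v
  have h1 := br_lin f g h a hh v
  have h2 := rm_algebraMap (Br B.1) a (Ops.lin (brMap f) v)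
  rw [← h2] at h1
  exact h1

variable {W : Type u} [Ring W] [Algebra K W]

/-- the functor on spaces with operators given by a fully wild algebra -/
noncomputable def wildFun (G : FDMod K (Fr K) ⥤ FDMod K W) (hG : IsFullExact K G) :
    HFun K (Fin (n + 1)) Wᵐᵒᵖ where
  obj A := (G.obj (toFD A)).obj
  map {A B} f := (G.map (toFDmap (A := A) (B := B) f)).hom.hom
  map_id A x := by
    rw [toFDmap_id, G.map_id]
    rfl
  map_comp {A B C} f g x := by
    rw [toFDmap_comp, G.map_comp]
    rfl
  full {A B} φ := by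
    have := hG.full
    obtain ⟨g, hg⟩ := G.map_surjective
      (ObjectProperty.homMk (ModuleCat.ofHom φ) : G.obj (toFD A) ⟶ G.obj (toFD B))
    obtain ⟨f, hf⟩ := toFDmap_full g
    refine ⟨f, ?_⟩
    rw [hf, hg]
    rfl
  faithful {A B} f g h := by
    have := hG.faithful
    apply toFDmap_faithful (A := A) (B := B)
    apply G.map_injective
    apply ObjectProperty.hom_ext
    apply ModuleCat.hom_ext
    exact h
  exact {A B C} f g h := hG.exact _ _ _ _ _ (toFDmap_exact f g h)
  lin {A B} f g h a hh x := by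
    have := hG.additive
    have := hG.linear
    rw [toFDmap_lin f g h a hh, G.map_add, G.map_smul]
    rfl
  fg A := by
    have h : Module.Finite K ((G.obj (toFD A)).obj) := (G.obj (toFD A)).property
    exact Module.Finite.of_restrictScalars_finite K Wᵐᵒᵖ _

end Q43.RE
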