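import Mathlib
import Pool.Agent.Q43.RE.Defs
import Pool.Agent.Q43.RE.Wild

/-!
# Comodules embed into the modules over a fully wild algebra
-/

open CategoryTheory TensorProduct
open scoped ModuleCat

set_option linter.unusedSectionVars false

namespace Q43.RE

universe u

variable {K : Type u} [Field K] {C : Type u} [AddCommGroup C] [Module K C] [Coalgebra K C]

theorem Comod.comm {A B : Comod K C} (f : A ⟶ B) : IsCohom (Comod.lin f) := Mor.comm f

/-- Constructor for morphisms. -/
def Comod.mkHom {A B : Comod K C} (f : A.carrier →ₗ[K] B.carrier) (hf : IsCohom f) : A ⟶ B :=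
  Mor.mk f hf

theorem Comod.hom_ext {A B : Comod K C} {f g : A ⟶ B} (h : Comod.lin f = Comod.lin g) :
    f = g :=
  Mor.ext h

/-! ### comodules as spaces with operators -/

/-- contraction with a functional -/
noncomputable def contr (l : Module.Dual K C) (N : Type u) [AddCommGroup N] [Module K N] :
    C ⊗[K] N →ₗ[K] N :=
  (TensorProduct.lid K N).toLinearMap.comp (LinearMap.rTensor N l)

@[simp] theorem contr_tmul (l : Module.Dual K C) (N : Type u) [AddCommGroup N] [Module K N]
    (c : C) (x : N) : contr l N (c ⊗ₜ x) = l c • x := by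
  simp [contr]

theorem contr_lTensor (l : Module.Dual K C) {M N : Type u} [AddCommGroup M] [Module K M]
    [AddCommGroup N] [Module K N] (g : M →ₗ[K] N) (z : C ⊗[K] M) :
    contr l N (g.lTensor C z) = g (contr l M z) := by
  induction z using TensorProduct.induction_on with
  | zero => simp
  | tmul c x => simp
  | add x y hx hy => rw [map_add, map_add, map_add, map_add, hx, hy]

theorem contr_separates {N : Type u} [AddCommGroup N] [Module K N] (z z' : C ⊗[K] N)
    (h : ∀ l : Module.Dual K C, contr l N z = contr l N z') : z = z' := by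
  classical
  let b := Module.Basis.ofVectorSpace K C
  have key : ∀ (z : C ⊗[K] N) i, (TensorProduct.equivFinsuppOfBasisLeft b z) i =
      contr (b.coord i) N z := by
    intro z i
    induction z using TensorProduct.induction_on with
    | zero => simp
    | tmul c x => simp
    | add x y hx hy => rw [map_add, Finsupp.add_apply, hx, hy, map_add]
  apply (TensorProduct.equivFinsuppOfBasisLeft (N := N) b).injective
  ext i
  rw [key, key, h]

theorem contr_lmap (l : Module.Dual K C) {M N : Type u} [AddCommGroup M] [Module K M]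
    [AddCommGroup N] [Module K N] (g : M →ₗ[K] N) (z : Ten K C M) :
    contr l N (lmap C g z) = g (contr l M z) := contr_lTensor l g z

/-- a comodule as a space with operators -/
noncomputable def toOps (M : Comod K C) : Ops K (Module.Dual K C) where
  V := M.carrier
  op l := (contr l M.carrier).comp M.coact

theorem toOps_comm {M N : Comod K C} (f : M ⟶ N) (l : Module.Dual K C) (v : M.carrier) :
    Comod.lin f ((toOps M).op l v) = (toOps N).op l (Comod.lin f v) := by
  show Comod.lin f (contr l M.carrier (M.coact v)) =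
    contr l N.carrier (N.coact (Comod.lin f v))
  rw [Comod.comm f]
  exact (contr_lmap l _ _).symm

/-- the same on morphisms -/
noncomputable def opsMap {M N : Comod K C} (f : M ⟶ N) : toOps M ⟶ toOps N :=
  Ops.mkHom (Comod.lin f) (toOps_comm f)

theorem opsMap_full {M N : Comod K C} (g : toOps M ⟶ toOps N) : ∃ f : M ⟶ N, opsMap f = g := by
  let g' : M.carrier →ₗ[K] N.carrier := Ops.lin g
  have hg : ∀ m, N.coact (g' m) = lmap C g' (M.coact m) := by
    intro m
    refine contr_separates _ _ fun l => ?_
    exact (Ops.comm g l m).symm.trans (contr_lmap l g' (M.coact m)).symm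
  exact ⟨Comod.mkHom g' hg, rfl⟩

theorem opsMap_faithful {M N : Comod K C} (f g : M ⟶ N) (h : opsMap f = opsMap g) : f = g := by
  apply Comod.hom_ext
  apply LinearMap.ext
  intro v
  exact congrArg (fun t => Ops.lin t v) h

/-! ### splitting of idempotents -/

section Split

variable (M : Comod K C) (e : M ⟶ M) (he : e ≫ e = e)

/-- the range of an idempotent -/
abbrev rg : Submodule K M.carrier := LinearMap.range (Comod.lin e)

/-- the projection to the range -/
noncomputable def pr : M.carrier →ₗ[K] rg M e := (Comod.lin e).rangeRestrict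

include he in
theorem e_idem (x : M.carrier) : Comod.lin e (Comod.lin e x) = Comod.lin e x :=
  congrArg (fun t => Comod.lin t x) he

include he in
theorem e_fix (x : rg M e) : Comod.lin e x.1 = x.1 := by
  obtain ⟨_, y, rfl⟩ := x
  exact e_idem M e he y

include he in
theorem pr_val (x : rg M e) : pr M e x.1 = x := Subtype.ext (e_fix M e he x)

/-- the coaction on the range -/
noncomputable def rgCoact : rg M e →ₗ[K] Ten K C (rg M e) :=
  (lmap C (pr M e)).comp (M.coact.comp (rg M e).subtype)

theorem lTensor_lTensor {M P : Type u} [AddCommGroup M] [Module K M] [AddCommGroup P] [Module K P]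
    (p : M →ₗ[K] P) (z : C ⊗[K] M) :
    TensorProduct.assoc K C C P
      ((CoalgebraStruct.comul (R := K) (A := C)).rTensor P (p.lTensor C z)) =
      (p.lTensor C).lTensor C (TensorProduct.assoc K C C M
        ((CoalgebraStruct.comul (R := K) (A := C)).rTensor M z)) := by
  induction z using TensorProduct.induction_on with
  | zero => simp
  | tmul c x =>
    rw [LinearMap.lTensor_tmul, LinearMap.rTensor_tmul, LinearMap.rTensor_tmul]
    generalize (CoalgebraStruct.comul (R := K) (A := C)) c = w
    induction w using TensorProduct.induction_on with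
    | zero => simp
    | tmul a b => simp
    | add a b ha hb => rw [TensorProduct.add_tmul, TensorProduct.add_tmul, map_add, map_add,
        map_add, ha, hb]
  | add x y hx hy => rw [map_add, map_add, map_add, map_add, map_add, map_add, hx, hy]

theorem counit_lTensor {M P : Type u} [AddCommGroup M] [Module K M] [AddCommGroup P] [Module K P]
    (p : M →ₗ[K] P) (z : C ⊗[K] M) :
    TensorProduct.lid K P ((CoalgebraStruct.counit (R := K) (A := C)).rTensor P (p.lTensor C z)) =
      p (TensorProduct.lid K M
        ((CoalgebraStruct.counit (R := K) (A := C)).rTensor M z)) := by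
  induction z using TensorProduct.induction_on with
  | zero => simp
  | tmul c x => simp
  | add x y hx hy => rw [map_add, map_add, map_add, map_add, map_add, map_add, hx, hy]

theorem comulT_lmap {M P : Type u} [AddCommGroup M] [Module K M] [AddCommGroup P] [Module K P]
    (p : M →ₗ[K] P) (z : Ten K C M) :
    comulT K C P (lmap C p z) = lmap C (lmap C p) (comulT K C M z) := lTensor_lTensor p z

theorem counitT_lmap {M P : Type u} [AddCommGroup M] [Module K M] [AddCommGroup P] [Module K P]
    (p : M →ₗ[K] P) (z : Ten K C M) :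
    counitT K C P (lmap C p z) = p (counitT K C M z) := counit_lTensor p z

include he in
theorem e_coact (x : rg M e) : lmap C (Comod.lin e) (M.coact x.1) = M.coact x.1 := by
  rw [← Comod.comm e, e_fix M e he]

/-- the range of an idempotent endomorphism as a comodule -/
noncomputable def rgComod : Comod K C where
  carrier := rg M e
  coact := rgCoact M e
  coassoc x := by
    show comulT K C (rg M e) (lmap C (pr M e) (M.coact x.1)) =
      lmap C (rgCoact M e) (lmap C (pr M e) (M.coact x.1))
    rw [comulT_lmap, M.coassoc, ← lmap_comp, ← lmap_comp]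
    have h1 : (rgCoact M e).comp (pr M e) =
        ((lmap C (pr M e)).comp M.coact).comp (Comod.lin e) := rfl
    rw [h1, lmap_comp (Comod.lin e), e_coact M e he x]
  counit x := by
    show counitT K C (rg M e) (lmap C (pr M e) (M.coact x.1)) = x
    rw [counitT_lmap, M.counit, pr_val M e he]

/-- inclusion of the range -/
noncomputable def rgIn : rgComod M e he ⟶ M :=
  Comod.mkHom (A := rgComod M e he) (B := M) (rg M e).subtype (fun x => by
    show M.coact x.1 = lmap C (rg M e).subtype (lmap C (pr M e) (M.coact x.1))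
    rw [← lmap_comp]
    exact (e_coact M e he x).symm)

/-- projection onto the range -/
noncomputable def rgPr : M ⟶ rgComod M e he :=
  Comod.mkHom (A := M) (B := rgComod M e he) (pr M e) (fun x => by
    show lmap C (pr M e) (M.coact (Comod.lin e x)) = lmap C (pr M e) (M.coact x)
    rw [Comod.comm e, ← lmap_comp]
    have h : (pr M e).comp (Comod.lin e) = pr M e :=
      LinearMap.ext fun y => Subtype.ext (e_idem M e he y)
    rw [h])

theorem rgIn_rgPr : rgIn M e he ≫ rgPr M e he = 𝟙 _ :=
  Comod.hom_ext (LinearMap.ext fun x => pr_val M e he x)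

theorem rgPr_rgIn : rgPr M e he ≫ rgIn M e he = e :=
  Comod.hom_ext (LinearMap.ext fun _ => rfl)

end Split

/-- Idempotents split in the category of comodules. -/
theorem comod_split (M : Comod K C) (e : M ⟶ M) (he : e ≫ e = e) :
    ∃ (Y : Comod K C) (i : Y ⟶ M) (p : M ⟶ Y), i ≫ p = 𝟙 Y ∧ p ≫ i = e :=
  ⟨rgComod M e he, rgIn M e he, rgPr M e he, rgIn_rgPr M e he, rgPr_rgIn M e he⟩

/-- Full faithful additive functors preserve indecomposability if idempotents split. -/
theorem indec_of_full {A B : Type*} [Category A] [Preadditive A] [Category B] [Preadditive B]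
    (F : A ⥤ B) (hF : F.Full) (hF' : F.Faithful)
    (hadd : ∀ (X Y : A) (f g : X ⟶ Y), F.map (f + g) = F.map f + F.map g)
    (hsplit : ∀ (M : A) (e : M ⟶ M), e ≫ e = e →
      ∃ (Y : A) (i : Y ⟶ M) (p : M ⟶ Y), i ≫ p = 𝟙 Y ∧ p ≫ i = e)
    (X : A) (hX : Indec X) : Indec (F.obj X) := by
  have hzero : ∀ X Y : A, F.map (0 : X ⟶ Y) = 0 := by
    intro X Y
    simpa using hadd X Y 0 0
  obtain ⟨hX0, hX1⟩ := hX
  refine ⟨?_, ?_⟩
  · intro h
    apply hX0
    rw [Limits.IsZero.iff_id_eq_zero] at h ⊢
    apply F.map_injective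
    rw [F.map_id, h, hzero]
  · intro Y Z i p j q hip hjq hsum
    obtain ⟨e, he⟩ := F.map_surjective (p ≫ i)
    have hee : e ≫ e = e := by
      apply F.map_injective
      rw [F.map_comp, he, Category.assoc, reassoc_of% hip]
    have hne : (𝟙 X - e) ≫ (𝟙 X - e) = 𝟙 X - e := by
      simp [hee]
    obtain ⟨Y', i', p', h1, h2⟩ := hsplit X e hee
    obtain ⟨Z', j', q', h3, h4⟩ := hsplit X (𝟙 X - e) hne
    have hs : p' ≫ i' + q' ≫ j' = 𝟙 X := by rw [h2, h4]; abel
    rcases hX1 Y' Z' i' p' j' q' h1 h3 hs with h | h
    · left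
      rw [Limits.IsZero.iff_id_eq_zero]
      have he0 : e = 0 := by
        rw [← h2, h.eq_of_tgt p' 0, Limits.zero_comp]
      have h5 : p ≫ i = 0 := by rw [← he, he0, hzero]
      calc 𝟙 Y = (i ≫ p) ≫ (i ≫ p) := by rw [hip, Category.comp_id]
        _ = i ≫ (p ≫ i) ≫ p := by simp only [Category.assoc]
        _ = 0 := by rw [h5]; simp
    · right
      rw [Limits.IsZero.iff_id_eq_zero]
      have he1 : 𝟙 X - e = 0 := by
        rw [← h4, h.eq_of_tgt q' 0, Limits.zero_comp]
      have he2 : e = 𝟙 X := (sub_eq_zero.1 he1).symm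
      have h5 : p ≫ i = 𝟙 (F.obj X) := by rw [← he, he2, F.map_id]
      have h6 : q ≫ j = 0 := by
        rw [h5] at hsum
        simpa using hsum
      calc 𝟙 Z = (j ≫ q) ≫ (j ≫ q) := by rw [hjq, Category.comp_id]
        _ = j ≫ (q ≫ j) ≫ q := by simp only [Category.assoc]
        _ = 0 := by rw [h6]; simp

/-! ### the functor -/

section Big

variable (X : Type u) [LinearOrder X] [WellFoundedLT X] [OrderTop X]

/-- the three relations -/
def rels (j : ℕ) (r : ℕ → X) : Prop :=
  match j with
  | 0 => R1 r
  | 1 => R2 r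
  | _ => R3 r

theorem rels_rigid (f : X → X)
    (h : ∀ j, j < 3 → ∀ r, rels X j r → rels X j (fun n => f (r n))) : ∀ x, f x = x :=
  eq_id_of_preserves f (fun r hr => h 0 (by norm_num) r hr) (fun r hr => h 1 (by norm_num) r hr)
    (fun r hr => h 2 (by norm_num) r hr)

variable (cd : X → Option (Module.Dual K C)) {R : Type u} [Ring R] [Algebra K R]
  (H : HFun K (Fin 10) R)

/-- the space with operators built from a comodule -/
noncomputable def bigOps (M : Comod K C) : Ops K (Fin 10) := Kr (Phi X (rels X) cd (toOps M))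

/-- the same on morphisms -/
noncomputable def bigMap {M N : Comod K C} (f : M ⟶ N) : bigOps X cd M ⟶ bigOps X cd N :=
  krMap (phiMap X (rels X) cd (opsMap f))

theorem bigMap_id (M : Comod K C) : bigMap X cd (𝟙 M) = 𝟙 (bigOps X cd M) := by
  have h : phiMap X (rels X) cd (opsMap (𝟙 M)) = 𝟙 (Phi X (rels X) cd (toOps M)) := by
    apply Ops.hom_ext
    intro x
    exact Finsupp.mapRange_id (α := ℕ → X) (M := M.carrier) x
  rw [bigMap, h]
  rfl

theorem bigMap_comp {M N P : Comod K C} (f : M ⟶ N) (g : N ⟶ P) :
    bigMap X cd (f ≫ g) = bigMap X cd f ≫ bigMap X cd g := by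
  have h : phiMap X (rels X) cd (opsMap (f ≫ g)) =
      phiMap X (rels X) cd (opsMap f) ≫ phiMap X (rels X) cd (opsMap g) := by
    apply Ops.hom_ext
    intro x
    have h1 : phiLin X (opsMap (f ≫ g)) x = phiLin X (opsMap g) (phiLin X (opsMap f) x) := by
      ext s
      simp only [phiLin, Finsupp.mapRange.linearMap_apply, Finsupp.mapRange_apply]
      rfl
    exact h1
  rw [bigMap, h]
  rfl

theorem bigMap_full (hcd : ∀ l, ∃ x, cd x = some l) {M N : Comod K C}
    (g : bigOps X cd M ⟶ bigOps X cd N) : ∃ f : M ⟶ N, bigMap X cd f = g := by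
  obtain ⟨g1, hg1⟩ := kr_full g
  obtain ⟨g2, hg2⟩ := phi_full X (rels X) cd (rels_rigid X) hcd g1
  obtain ⟨f, hf⟩ := opsMap_full g2
  exact ⟨f, by rw [bigMap, hf, hg2, hg1]⟩

theorem bigMap_faithful {M N : Comod K C} (f g : M ⟶ N) (h : bigMap X cd f = bigMap X cd g) :
    f = g :=
  opsMap_faithful f g (phi_faithful X (rels X) cd _ _ (kr_faithful _ _ h))

/-- the functor -/
noncomputable def bigFun : Comod K C ⥤ ModuleCat.{u} R where
  obj M := ModuleCat.of R (H.Lim (bigOps X cd M))
  map f := ModuleCat.ofHom (H.limMap (bigMap X cd f))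
  map_id M := by
    apply ModuleCat.hom_ext
    apply LinearMap.ext
    intro z
    show H.limMap (bigMap X cd (𝟙 M)) z = z
    rw [bigMap_id, H.limMap_id]
  map_comp f g := by
    apply ModuleCat.hom_ext
    apply LinearMap.ext
    intro z
    show H.limMap (bigMap X cd (f ≫ g)) z = H.limMap (bigMap X cd g) (H.limMap (bigMap X cd f) z)
    rw [bigMap_comp, H.limMap_comp]

theorem bigFun_full (hcd : ∀ l, ∃ x, cd x = some l) : (bigFun X cd H).Full := by
  constructor
  intro M N φ
  obtain ⟨g, hg⟩ := H.lim_full (kr_locFin _) φ.hom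
  obtain ⟨f, hf⟩ := bigMap_full X cd hcd g
  refine ⟨f, ?_⟩
  apply ModuleCat.hom_ext
  apply LinearMap.ext
  intro z
  show H.limMap (bigMap X cd f) z = φ.hom z
  rw [hf]
  exact hg z

theorem bigFun_faithful : (bigFun X cd H).Faithful := by
  constructor
  intro M N f g h
  apply bigMap_faithful X cd
  apply H.lim_faithful (kr_locFin _)
  intro z
  exact congrArg (fun t => ModuleCat.Hom.hom t z) h

theorem bigFun_exact {M N P : Comod K C} (f : M ⟶ N) (g : N ⟶ P)
    (h : Function.Exact (Comod.lin f) (Comod.lin g)) :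
    Function.Exact ((bigFun X cd H).map f).hom ((bigFun X cd H).map g).hom :=
  H.lim_exact (kr_locFin _) _ _ (kr_exact _ _ (phi_exact X (rels X) cd _ _ h))

theorem bigFun_lin {M N : Comod K C} (f g h : M ⟶ N) (a : K) (hh : h = a • f + g)
    (z : H.Lim (bigOps X cd M)) :
    H.limMap (bigMap X cd h) z = algebraMap K R a • H.limMap (bigMap X cd f) z +
      H.limMap (bigMap X cd g) z := by
  apply H.limMap_lin
  apply kr_lin
  apply phi_lin
  intro v
  subst hh
  rfl

end Big

/-- **Main theorem.** -/
theorem exists_repEmbedding (K : Type u) [Field K] (C : Type u) [AddCommGroup C] [Module K C]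
    [Coalgebra K C] (W : Type u) [Ring W] [Algebra K W] (hW : FullyWild K W) :
    ∃ F : Comod K C ⥤ RMod W, IsRepEmbedding K F ∧ F.Full ∧ F.Faithful := by
  obtain ⟨G, hG⟩ := hW
  let H : HFun K (Fin 10) Wᵐᵒᵖ := wildFun G hG
  obtain ⟨_, _⟩ := exists_wellFoundedLT (Module.Dual K C)
  let X : Type u := WithTop (Module.Dual K C)
  let cd : X → Option (Module.Dual K C) := fun x => x
  have hcd : ∀ l, ∃ x, cd x = some l := fun l => ⟨(l : WithTop (Module.Dual K C)), rfl⟩
  have hfull := bigFun_full X cd H hcd
  have hfaith := bigFun_faithful X cd H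
  have hadd : ∀ (A B : Comod K C) (f g : A ⟶ B),
      (bigFun X cd H).map (f + g) = (bigFun X cd H).map f + (bigFun X cd H).map g := by
    intro A B f g
    apply ModuleCat.hom_ext
    apply LinearMap.ext
    intro z
    have := bigFun_lin X cd H f g (f + g) 1 (by rw [one_smul]) z
    rw [map_one, one_smul] at this
    exact this
  have hzero : ∀ (A B : Comod K C) (z : H.Lim (bigOps X cd A)),
      H.limMap (bigMap X cd (0 : A ⟶ B)) z = 0 := by
    intro A B z
    have h := hadd A B 0 0
    rw [add_zero] at h
    have h' : (bigFun X cd H).map (0 : A ⟶ B) = 0 := left_eq_add.1 h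
    exact congrArg (fun t => ModuleCat.Hom.hom t z) h'
  refine ⟨bigFun X cd H, ⟨⟨hadd _ _ _ _⟩, ⟨?_⟩, ?_, ?_, ?_⟩, hfull, hfaith⟩
  · intro A B f a
    apply ModuleCat.hom_ext
    apply LinearMap.ext
    intro z
    have := bigFun_lin X cd H f 0 (a • f) a (by rw [add_zero]) z
    rw [hzero, add_zero] at this
    exact this
  · intro A B D f g h
    exact bigFun_exact X cd H f g h
  · intro A hA
    exact indec_of_full _ hfull hfaith hadd comod_split A hA
  · rintro A B ⟨e⟩
    exact ⟨(bigFun X cd H).preimageIso e⟩

end Q43.RE
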